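import Pool.Agent.H12.DE.RawPhi

/-!
# Project DE: algebraic core of the raw bounds

`X = tan(ξ/2)`, `Z = tan(ζ/2)`, `P = tan l`; `μ = min P 1`.
-/

set_option autoImplicit false
open Real Set MeasureTheory Filter Topology

namespace Pool.Agent.H12.DE
open Pool.Agent.H45.FL Pool.Agent.H51.DG Pool.Agent.H45.DY Pool.Agent.H90.DC Pool.Agent.H90.DE
open Pool.Agent.H44.DE

theorem gk_inv (m : ℝ) {X : ℝ} (hX : 0 < X) : gk m (1 / X) = (X ^ 2 + 1) * phi0 (X * m) / X ^ 3 := by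
  rw [gk_phi (one_div_pos.2 hX).ne', div_div_eq_mul_div, div_one, mul_comm m X]
  field_simp

theorem gk_inv_nonneg {m X : ℝ} (hX : 0 < X) (h : -1 < X * m) : 0 ≤ gk m (1 / X) := by
  rw [gk_inv m hX]
  have := phi0_nonneg h
  positivity

theorem L0_nonneg {X M : ℝ} (hX : 0 < X) (hM : 0 < M) : 0 ≤ L0 X M := by
  rw [L0_phi hM.ne']
  have h : 0 < X / M := div_pos hX hM
  have := phi0_nonneg (r := X / M) (by linarith)
  positivity

theorem L0_le_gk {X M : ℝ} (hX : 0 < X) (hM : 0 < M) : L0 X M ≤ gk (1 / M) (1 / X) := by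
  rw [gk_inv _ hX, L0_phi hM.ne', mul_one_div]
  have h : 0 < X / M := div_pos hX hM
  have h1 := phi0_nonneg (r := X / M) (by linarith)
  gcongr
  nlinarith [sq_nonneg X]

/-- the mirror term of the arc P -/
theorem core_PP {X Z P : ℝ} (hX : 0 < X) (hZ : 0 < Z) (hP : 0 < P)
    (hm : -1 < X * ((1 - Z * P) / (Z + P))) :
    L0 X (Z + P) - 1 / 4 * (1 / X) ≤ gk ((1 - Z * P) / (Z + P)) (1 / X) := by
  have hD : 0 < Z + P := by linarith
  rw [gk_inv _ hX, L0_phi hD.ne']
  have hX3 : 0 < X ^ 3 := by positivity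
  have e : phi0 (X / (Z + P)) / X ^ 3 - 1 / 4 * (1 / X) =
      (phi0 (X / (Z + P)) - X ^ 2 / 4) / X ^ 3 := by
    field_simp
  rw [e]
  refine div_le_div_of_nonneg_right ?_ hX3.le
  have h4 : 4 * (Z * P) ≤ (Z + P) ^ 2 := by nlinarith [sq_nonneg (Z - P)]
  have hZP : 0 < Z * P := mul_pos hZ hP
  rcases le_total (Z * P) 1 with h | h
  · have hm0 : 0 ≤ X * ((1 - Z * P) / (Z + P)) :=
      mul_nonneg hX.le (div_nonneg (by linarith) hD.le)
    have hle : X * ((1 - Z * P) / (Z + P)) ≤ X / (Z + P) := by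
      rw [mul_div_assoc']
      refine div_le_div_of_nonneg_right ?_ hD.le
      nlinarith
    have h1 := phi0_sub_le hm0 hle
    have h2 : (X / (Z + P) - X * ((1 - Z * P) / (Z + P))) * (X / (Z + P)) ≤ X ^ 2 / 4 := by
      have e2 : (X / (Z + P) - X * ((1 - Z * P) / (Z + P))) * (X / (Z + P)) =
          X ^ 2 * (Z * P) / (Z + P) ^ 2 := by
        field_simp
        ring
      rw [e2, div_le_div_iff₀ (by positivity) (by norm_num)]
      nlinarith [sq_nonneg X]
    have h3 := phi0_nonneg (r := X * ((1 - Z * P) / (Z + P))) (by linarith)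
    nlinarith [sq_nonneg X]
  · have h1 := phi0_sub_le (r := X / (Z + P)) (s := 0) le_rfl (div_nonneg hX.le hD.le)
    have h0 : phi0 0 = 0 := by unfold phi0; simp
    rw [h0, sub_zero, sub_zero] at h1
    have h2 : X / (Z + P) * (X / (Z + P)) ≤ X ^ 2 / 4 := by
      have e2 : X / (Z + P) * (X / (Z + P)) = X ^ 2 / (Z + P) ^ 2 := by
        field_simp
      rw [e2]
      refine div_le_div_of_nonneg_left (sq_nonneg X) (by norm_num) ?_
      linarith
    have h3 := phi0_nonneg hm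
    nlinarith [sq_nonneg X]

theorem core_L0 {X D : ℝ} (hX : 0 < X) (hD : 0 < D) :
    1 / 2 * (1 / X) / (X + D) ^ 2 + 1 / 3 / (X + D) ^ 3 ≤ L0 X D := by
  have hS : 0 < X + D := by linarith
  have hq0 : 0 ≤ X / (X + D) := div_nonneg hX.le hS.le
  have hq1 : X / (X + D) < 1 := by
    rw [div_lt_one hS]
    linarith
  have h := log_one_sub_le hq0 hq1
  have e1 : 1 - X / (X + D) = (1 + X / D)⁻¹ := by
    have : 1 + X / D ≠ 0 := by positivity
    field_simp
    ring
  rw [e1, Real.log_inv, neg_neg] at h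
  unfold L0
  have hX3 : 0 < X ^ 3 := by positivity
  rw [le_div_iff₀ hX3]
  have e2 : (1 / 2 * (1 / X) / (X + D) ^ 2 + 1 / 3 / (X + D) ^ 3) * X ^ 3 =
      (X / (X + D)) ^ 2 / 2 + (X / (X + D)) ^ 3 / 3 := by
    field_simp
  rw [e2]
  linarith

theorem core_kpp {X Z P : ℝ} (hX : 0 < X) (hZ : 0 < Z) (hP : 0 < P) :
    kpp P X Z ≤ L0 X (Z + P) + L0 Z (X + P) - 9 / 2 / (X + Z + P) ^ 3 := by
  have h1 := core_L0 hX (D := Z + P) (by linarith)
  have h2 := core_L0 hZ (D := X + P) (by linarith)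
  rw [show X + (Z + P) = X + Z + P by ring] at h1
  rw [show Z + (X + P) = X + Z + P by ring] at h2
  unfold kpp
  have hS : 0 < X + Z + P := by linarith
  have e : 1 / 2 * (1 / X + 1 / Z) / (X + Z + P) ^ 2 - 23 / 6 / (X + Z + P) ^ 3 =
      (1 / 2 * (1 / X) / (X + Z + P) ^ 2 + 1 / 3 / (X + Z + P) ^ 3) +
      (1 / 2 * (1 / Z) / (X + Z + P) ^ 2 + 1 / 3 / (X + Z + P) ^ 3) - 9 / 2 / (X + Z + P) ^ 3 := by
    field_simp
    ring
  rw [e]
  linarith

/-- lower bound of `phi0 (X/Z)` on the square -/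
theorem phi0_sq {X Z μ : ℝ} (hX : 0 < X) (hZ : 0 < Z) (hμ : 0 < μ) (h1 : X < μ / 16)
    (h2 : Z < μ / 16) : 32 * X ^ 2 / μ ^ 2 ≤ phi0 (X / Z) := by
  have h := phi0_low (r := X / Z) (by positivity)
  refine le_trans ?_ h
  have e : (X / Z) ^ 2 / (2 * (1 + X / Z) ^ 2) = X ^ 2 / (2 * (X + Z) ^ 2) := by
    field_simp
    ring
  rw [e, div_le_div_iff₀ (by positivity) (by positivity)]
  have h3 : 8 * (X + Z) ≤ μ := by linarith
  have h4 : 64 * (X + Z) ^ 2 ≤ μ ^ 2 := by nlinarith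
  nlinarith [sq_nonneg X]

theorem core_T1 {X Z m : ℝ} (hX : 0 < X) (hm0 : 0 ≤ m) (hm1 : m ≤ 1 / Z) :
    gk m (1 / X) ≤ gk (1 / Z) (1 / X) := by
  rw [gk_inv _ hX, gk_inv _ hX]
  have h := phi0_mono (mul_nonneg hX.le hm0) (mul_le_mul_of_nonneg_left hm1 hX.le)
  gcongr

theorem core_T1sq {X Z m μ : ℝ} (hX : 0 < X) (hZ : 0 < Z) (hm0 : 0 ≤ m) (hμ : 0 < μ)
    (h1 : X < μ / 16) (h2 : Z < μ / 16) (hm : m * (15 * μ) ≤ 17) :
    31 / 32 * L0 X Z ≤ gk (1 / Z) (1 / X) - gk m (1 / X) := by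
  rw [gk_inv _ hX, gk_inv _ hX, L0_phi hZ.ne', mul_one_div, ← sub_div, ← mul_sub,
    mul_div_assoc']
  have hX3 : 0 < X ^ 3 := by positivity
  refine div_le_div_of_nonneg_right ?_ hX3.le
  have a1 := phi0_sq hX hZ hμ h1 h2
  have a2 := phi0_half (mul_nonneg hX.le hm0)
  have hm2 : m ^ 2 * (225 * μ ^ 2) ≤ 289 := by
    have h3 : 0 ≤ m * (15 * μ) := by positivity
    nlinarith
  have a3 : (X * m) ^ 2 / 2 ≤ X ^ 2 / μ ^ 2 := by
    rw [div_le_div_iff₀ (by norm_num) (by positivity)]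
    have : m ^ 2 * μ ^ 2 ≤ 2 := by linarith
    nlinarith [sq_nonneg X]
  have a4 : phi0 (X * m) ≤ 1 / 32 * phi0 (X / Z) := by
    have e : 32 * X ^ 2 / μ ^ 2 = 32 * (X ^ 2 / μ ^ 2) := by ring
    rw [e] at a1
    linarith
  have a5 : 0 ≤ phi0 (X / Z) := phi0_nonneg (by have : 0 < X / Z := by positivity
                                                linarith)
  nlinarith [sq_nonneg X]

theorem core_T2 {X Z m : ℝ} (hX : 0 < X) (hZ : 0 < Z) (h1 : m * (X + 2 * Z) ≤ 1)
    (h2 : 0 < 1 / X + m) : gk (-m) (1 / Z) ≤ gk (1 / X) (1 / Z) := by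
  rw [gk_inv _ hZ, gk_inv _ hZ]
  have key : phi0 (Z * -m) ≤ phi0 (Z * (1 / X)) := by
    rcases le_total 0 m with h | h
    · have hZ2 : 0 < X + 2 * Z := by linarith
      have hr1 : Z * m ≤ Z / (X + 2 * Z) := by
        rw [le_div_iff₀ hZ2]
        nlinarith
      have hlt : Z / (X + 2 * Z) < 1 := by
        rw [div_lt_one hZ2]
        linarith
      have b1 : phi0 (-(Z * m)) ≤ phi0 (-(Z / (X + 2 * Z))) :=
        phi0_anti (by linarith) (by linarith) (by
          have := mul_nonneg hZ.le h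
          linarith)
      have b2 : phi0 (-(Z / (X + 2 * Z))) ≤ phi0 (Z / X) := by
        have c1 := Real.le_log_one_add_of_nonneg (x := 2 * (Z / X)) (by positivity)
        unfold phi0
        have d1 : 1 + Z / X = (X + Z) / X := by field_simp
        have d2 : 1 + -(Z / (X + 2 * Z)) = (X + Z) / (X + 2 * Z) := by
          field_simp
          ring
        have d3 : 1 + 2 * (Z / X) = (X + 2 * Z) / X := by field_simp
        rw [d3, Real.log_div hZ2.ne' hX.ne'] at c1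
        rw [d1, d2, Real.log_div (by positivity) hZ2.ne', Real.log_div (by positivity) hX.ne']
        have d4 : -(Z / (X + 2 * Z)) / ((X + Z) / (X + 2 * Z)) = -(Z / (X + Z)) := by
          field_simp
        have d5 : Z / X / ((X + Z) / X) = Z / (X + Z) := by
          field_simp
        have d6 : 2 * (2 * (Z / X)) / (2 * (Z / X) + 2) = 2 * (Z / (X + Z)) := by
          field_simp
          ring
        rw [d4, d5]
        rw [d6] at c1
        linarith
      rw [mul_neg, mul_one_div]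
      exact b1.trans b2
    · refine phi0_mono (mul_nonneg hZ.le (by linarith)) ?_
      exact mul_le_mul_of_nonneg_left (by linarith) hZ.le
  gcongr

theorem core_T2sq {X Z m μ : ℝ} (hX : 0 < X) (hZ : 0 < Z) (hμ : 0 < μ)
    (hμ1 : μ ≤ 1) (h1 : X < μ / 16) (h2 : Z < μ / 16) (hm : m * μ ≤ 1) (hm' : -1 ≤ m) :
    31 / 32 * L0 Z X ≤ gk (1 / X) (1 / Z) - gk (-m) (1 / Z) := by
  rw [gk_inv _ hZ, gk_inv _ hZ, L0_phi hX.ne', mul_one_div, ← sub_div, ← mul_sub,
    mul_div_assoc']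
  have hZ3 : 0 < Z ^ 3 := by positivity
  refine div_le_div_of_nonneg_right ?_ hZ3.le
  have a1 := phi0_sq hZ hX hμ h2 h1
  have a5 : 0 ≤ phi0 (Z / X) := phi0_nonneg (by have : 0 < Z / X := by positivity
                                                linarith)
  have a2 : phi0 (Z * -m) ≤ Z ^ 2 / μ ^ 2 := by
    rcases le_total 0 m with h | h
    · have hr1 : m ≤ 1 / μ := by
        rw [le_div_iff₀ hμ]
        exact hm
      have hr2 : Z * m ≤ 1 / 16 := by
        have : Z * m ≤ μ / 16 * (1 / μ) := mul_le_mul h2.le hr1 h (by positivity)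
        have e : μ / 16 * (1 / μ) = 1 / 16 := by field_simp
        linarith
      have hr3 : Z * m ≤ Z / μ := by
        have := mul_le_mul_of_nonneg_left hr1 hZ.le
        rwa [mul_one_div] at this
      have hr4 : 0 ≤ Z * m := mul_nonneg hZ.le h
      have b1 := phi0_neg_le hr4 hr2
      rw [mul_neg]
      have b2 : (Z * m) ^ 2 ≤ (Z / μ) ^ 2 := by gcongr
      rw [div_pow] at b2
      have b3 : 0 ≤ Z ^ 2 / μ ^ 2 := by positivity
      linarith
    · have hr0 : 0 ≤ Z * -m := mul_nonneg hZ.le (by linarith)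
      have b1 := phi0_half hr0
      have b2 : (Z * -m) ^ 2 ≤ Z ^ 2 := by
        have : Z * -m ≤ Z * 1 := mul_le_mul_of_nonneg_left (by linarith) hZ.le
        rw [mul_one] at this
        gcongr
      have b3 : Z ^ 2 ≤ Z ^ 2 / μ ^ 2 := by
        rw [le_div_iff₀ (by positivity)]
        have : μ ^ 2 ≤ 1 := by nlinarith
        nlinarith [sq_nonneg Z]
      linarith [sq_nonneg Z]
  have a4 : phi0 (Z * -m) ≤ 1 / 32 * phi0 (Z / X) := by
    have e : 32 * Z ^ 2 / μ ^ 2 = 32 * (Z ^ 2 / μ ^ 2) := by ring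
    rw [e] at a1
    linarith
  nlinarith [sq_nonneg Z]

end Pool.Agent.H12.DE
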