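import Pool.Agent.H12.DE.RawK
import Pool.Agent.H12.DE.RawC

/-!
# Project DE: raw pointwise bounds in the re-based variables

`x = l + ξ`, `y = l + η` on the arc `(l,π)`, `x = l - ζ` on the arc `(0,l)`; `X = tn ξ`, ...
-/

set_option autoImplicit false
open Real Set MeasureTheory Filter Topology

namespace Pool.Agent.H12.DE
open Pool.Agent.H45.FL Pool.Agent.H51.DG Pool.Agent.H45.DY Pool.Agent.H90.DC Pool.Agent.H90.DE
open Pool.Agent.H44.DE

theorem tn_pos {t : ℝ} (h0 : 0 < t) (h1 : t < π) : 0 < tn t :=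
  Real.tan_pos_of_pos_of_lt_pi_div_two (by linarith) (by linarith)

theorem sin_pos_h {t : ℝ} (h0 : 0 < t) (h1 : t < 2 * π) : 0 < Real.sin (t / 2) :=
  Real.sin_pos_of_pos_of_lt_pi (by linarith) (by linarith)

theorem cos_pos_h {t : ℝ} (h0 : -π < t) (h1 : t < π) : 0 < Real.cos (t / 2) :=
  Real.cos_pos_of_mem_Ioo ⟨by linarith, by linarith⟩

theorem ct_tn {t : ℝ} (h0 : 0 < t) (h1 : t < π) : ct t = 1 / tn t := by
  have a1 := sin_pos_h h0 (by linarith)
  have a2 := cos_pos_h (by linarith) h1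
  unfold ct tn
  rw [Real.tan_eq_sin_div_cos, one_div_div]

/-- `cot (l + ξ/2)` -/
theorem ct_plus {l ξ : ℝ} (h0 : 0 < ξ) (h1 : ξ < π) :
    ct (2 * l + ξ) = (Real.cos l - tn ξ * Real.sin l) / (Real.sin l + tn ξ * Real.cos l) := by
  have a2 := cos_pos_h (t := ξ) (by linarith) h1
  unfold ct tn
  rw [Real.tan_eq_sin_div_cos, show (2 * l + ξ) / 2 = l + ξ / 2 by ring, Real.cos_add, Real.sin_add]
  have e1 : Real.cos l - Real.sin (ξ / 2) / Real.cos (ξ / 2) * Real.sin l =
      (Real.cos l * Real.cos (ξ / 2) - Real.sin l * Real.sin (ξ / 2)) / Real.cos (ξ / 2) := by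
    field_simp
  have e2 : Real.sin l + Real.sin (ξ / 2) / Real.cos (ξ / 2) * Real.cos l =
      (Real.sin l * Real.cos (ξ / 2) + Real.cos l * Real.sin (ξ / 2)) / Real.cos (ξ / 2) := by
    field_simp
  rw [e1, e2, div_div_div_cancel_right₀ a2.ne']

/-- `cot (l - ζ/2)` -/
theorem ct_minus {l ζ : ℝ} (h0 : 0 < ζ) (h1 : ζ < π) :
    ct (2 * l - ζ) = (Real.cos l + tn ζ * Real.sin l) / (Real.sin l - tn ζ * Real.cos l) := by
  have a2 := cos_pos_h (t := ζ) (by linarith) h1
  unfold ct tn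
  rw [Real.tan_eq_sin_div_cos, show (2 * l - ζ) / 2 = l - ζ / 2 by ring, Real.cos_sub, Real.sin_sub]
  have e1 : Real.cos l + Real.sin (ζ / 2) / Real.cos (ζ / 2) * Real.sin l =
      (Real.cos l * Real.cos (ζ / 2) + Real.sin l * Real.sin (ζ / 2)) / Real.cos (ζ / 2) := by
    field_simp
  have e2 : Real.sin l - Real.sin (ζ / 2) / Real.cos (ζ / 2) * Real.cos l =
      (Real.sin l * Real.cos (ζ / 2) - Real.cos l * Real.sin (ζ / 2)) / Real.cos (ζ / 2) := by
    field_simp
  rw [e1, e2, div_div_div_cancel_right₀ a2.ne']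

/-- sums of cotangents -/
theorem ct_sum_pos {s t : ℝ} (hs0 : 0 < s) (hs1 : s < 2 * π) (ht0 : 0 < t) (ht1 : t < 2 * π)
    (h : s + t < 2 * π) : 0 < ct s + ct t := by
  have a1 := sin_pos_h hs0 hs1
  have a2 := sin_pos_h ht0 ht1
  have a3 := sin_pos_h (t := s + t) (by linarith) h
  have e : ct s + ct t = Real.sin ((s + t) / 2) / (Real.sin (s / 2) * Real.sin (t / 2)) := by
    unfold ct
    rw [show (s + t) / 2 = s / 2 + t / 2 by ring, Real.sin_add]
    field_simp
    ring
  rw [e]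
  positivity

theorem ct_nonneg {t : ℝ} (h0 : 0 ≤ t) (h1 : t ≤ π) : 0 ≤ ct t := by
  unfold ct
  exact div_nonneg (Real.cos_nonneg_of_mem_Icc ⟨by linarith, by linarith⟩)
    (Real.sin_nonneg_of_nonneg_of_le_pi (by linarith) (by linarith))

/-- the cotangent decreases -/
theorem ct_le {s t : ℝ} (hs : 0 < s) (hst : s ≤ t) (ht : t < 2 * π) : ct t ≤ ct s := by
  rcases hst.eq_or_lt with h | h
  · rw [h]
  · have a1 := sin_pos_h hs (by linarith)
    have a2 := sin_pos_h (t := t) (by linarith) ht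
    have a3 := sin_pos_h (t := t - s) (by linarith) (by linarith)
    have e : ct s - ct t = Real.sin ((t - s) / 2) / (Real.sin (s / 2) * Real.sin (t / 2)) := by
      unfold ct
      rw [show (t - s) / 2 = t / 2 - s / 2 by ring, Real.sin_sub]
      field_simp
    have : 0 < ct s - ct t := by
      rw [e]
      positivity
    linarith

theorem pow3_le {a b : ℝ} (h : a ≤ b) : a ^ 3 ≤ b ^ 3 :=
  (Odd.strictMono_pow (by decide : Odd 3)).monotone h

section PP
variable {l ξ η : ℝ}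

theorem PP_gk (hl : 0 < l) (hξ : ξ ∈ Ioo (0:ℝ) (π - l)) (hη : η ∈ Ioo (0:ℝ) (π - l)) (hne : ξ ≠ η) :
    8 * π * kT l (l + ξ) (l + η) = -k3 (ct ξ) (ct η) - l1k (ct ξ) (ct η) +
      gk (ct (2 * l + η)) (ct ξ) + gk (ct (2 * l + ξ)) (ct η) := by
  have h := kT_PP (l := l) (x := l + ξ) (y := l + η) hl ⟨by linarith [hξ.1], by linarith [hξ.2]⟩
    ⟨by linarith [hη.1], by linarith [hη.2]⟩ (by intro h; exact hne (by linarith))
  rw [h, add_sub_cancel_left, add_sub_cancel_left, show l + (l + η) = 2 * l + η by ring,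
    show l + (l + ξ) = 2 * l + ξ by ring]

theorem PP_pos (hl : 0 < l) (hξ : ξ ∈ Ioo (0:ℝ) (π - l)) (hη : η ∈ Ioo (0:ℝ) (π - l)) :
    -1 < tn ξ * ct (2 * l + η) := by
  have hpi := Real.pi_pos
  obtain ⟨a0, a1⟩ := hξ
  obtain ⟨b0, b1⟩ := hη
  have h1 := ct_sum_pos (s := ξ) (t := 2 * l + η) a0 (by linarith) (by linarith) (by linarith)
    (by linarith)
  have hX := tn_pos a0 (by linarith : ξ < π)
  rw [ct_tn a0 (by linarith)] at h1
  have h2 := mul_pos hX h1
  rw [mul_add, mul_one_div_cancel hX.ne'] at h2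
  linarith

theorem ptPP1 (hl : 0 < l) (hl1 : l ≤ π / 4) (hξ : ξ ∈ Ioo (0:ℝ) (π - l))
    (hη : η ∈ Ioo (0:ℝ) (π - l)) (hne : ξ ≠ η) :
    -k3 (ct ξ) (ct η) - l1k (ct ξ) (ct η) + kpp (Real.tan l) (tn ξ) (tn η)
      - 1 / 4 * (1 / tn ξ + 1 / tn η) ≤
    8 * π * kT l (l + ξ) (l + η) - 9 / 2 * ct (l + ξ + (l + η)) ^ 3 := by
  have hpi := Real.pi_pos
  have p1 := PP_pos hl hξ hη
  have p2 := PP_pos hl hη hξ
  have a0 := hξ.1
  have a1 := hξ.2
  have b0 := hη.1
  have b1 := hη.2
  have hX := tn_pos a0 (by linarith : ξ < π)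
  have hZ := tn_pos b0 (by linarith : η < π)
  have hc : 0 < Real.cos l := Real.cos_pos_of_mem_Ioo ⟨by linarith, by linarith⟩
  have hs : 0 < Real.sin l := Real.sin_pos_of_pos_of_lt_pi hl (by linarith)
  have hP : 0 < Real.tan l := by
    rw [Real.tan_eq_sin_div_cos]
    positivity
  have em : ∀ {t : ℝ}, 0 < t → t < π → ct (2 * l + t) =
      (1 - tn t * Real.tan l) / (tn t + Real.tan l) := by
    intro t h0 h1
    have ht := tn_pos h0 h1
    rw [ct_plus h0 h1, Real.tan_eq_sin_div_cos]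
    have e1 : 1 - tn t * (Real.sin l / Real.cos l) = (Real.cos l - tn t * Real.sin l) / Real.cos l := by
      field_simp
    have e2 : tn t + Real.sin l / Real.cos l = (Real.sin l + tn t * Real.cos l) / Real.cos l := by
      field_simp
      ring
    rw [e1, e2, div_div_div_cancel_right₀ hc.ne']
  rw [PP_gk hl hξ hη hne, ct_tn a0 (by linarith), ct_tn b0 (by linarith)]
  rw [em b0 (by linarith)] at p1 ⊢
  rw [em a0 (by linarith)] at p2 ⊢
  have c1 := core_PP hX hZ hP p1
  have c2 := core_PP hZ hX hP p2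
  have c3 := core_kpp hX hZ hP
  -- the cotangent of the sum of three angles
  have c4 : ct (l + ξ + (l + η)) ≤ 1 / (tn ξ + tn η + Real.tan l) := by
    have d1 := sin_pos_h (t := ξ) a0 (by linarith)
    have d2 := sin_pos_h (t := 2 * l + η) (by linarith) (by linarith)
    have d3 := sin_pos_h (t := 2 * l + η + ξ) (by linarith) (by linarith)
    have h := ct_sum (x := 2 * l + η) (l := 0) (y := -ξ) (by rw [sub_zero]; exact d2.ne')
      (by rw [zero_sub, neg_neg]; exact d1.ne') (by rw [sub_neg_eq_add]; exact d3.ne')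
    rw [sub_zero, zero_sub, neg_neg, sub_neg_eq_add, em b0 (by linarith),
      ct_tn a0 (by linarith)] at h
    rw [show l + ξ + (l + η) = 2 * l + η + ξ by ring]
    have hD : 0 < tn η + Real.tan l := by linarith
    have hS : 0 < tn ξ + tn η + Real.tan l := by linarith
    rw [le_div_iff₀ hS]
    set X := tn ξ with hXd
    set Z := tn η with hZd
    set P := Real.tan l with hPd
    set c := ct (2 * l + η + ξ) with hcd
    have hm : (1 - Z * P) / (Z + P) * (Z + P) = 1 - Z * P := div_mul_cancel₀ _ hD.ne'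
    set m := (1 - Z * P) / (Z + P) with hmd
    have h2 : c * (X * m + 1) = m - X := by
      have := congrArg (fun t => X * t) h
      field_simp at this
      linarith
    have h3 : 0 < X * m + 1 := by linarith
    have h4 : (m - X) * (X + Z + P) ≤ X * m + 1 := by
      nlinarith [mul_pos hZ hP, sq_nonneg X, mul_pos hX hD]
    have h5 : c * (X + Z + P) * (X * m + 1) ≤ 1 * (X * m + 1) := by
      calc c * (X + Z + P) * (X * m + 1) = c * (X * m + 1) * (X + Z + P) := by ring
        _ = (m - X) * (X + Z + P) := by rw [h2]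
        _ ≤ 1 * (X * m + 1) := by linarith
    exact le_of_mul_le_mul_right h5 h3
  have c5 := pow3_le c4
  rw [one_div, inv_pow, ← one_div] at c5
  have e9 : 9 / 2 / (tn ξ + tn η + Real.tan l) ^ 3 =
      9 / 2 * (1 / (tn ξ + tn η + Real.tan l) ^ 3) := by ring
  rw [e9] at c3
  linarith

theorem ptPP2 (hl : π / 4 ≤ l) (hξ : ξ ∈ Ioo (0:ℝ) (π - l))
    (hη : η ∈ Ioo (0:ℝ) (π - l)) (hne : ξ ≠ η) :
    -k3 (ct ξ) (ct η) - l1k (ct ξ) (ct η) - 9 / 2 ≤
    8 * π * kT l (l + ξ) (l + η) - 9 / 2 * ct (l + ξ + (l + η)) ^ 3 := by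
  have hpi := Real.pi_pos
  have hl0 : 0 < l := by linarith
  have p1 := PP_pos hl0 hξ hη
  have p2 := PP_pos hl0 hη hξ
  have a0 := hξ.1
  have a1 := hξ.2
  have b0 := hη.1
  have b1 := hη.2
  have hX := tn_pos a0 (by linarith : ξ < π)
  have hZ := tn_pos b0 (by linarith : η < π)
  rw [PP_gk hl0 hξ hη hne, ct_tn a0 (by linarith), ct_tn b0 (by linarith)]
  have c1 := gk_inv_nonneg hX p1
  have c2 := gk_inv_nonneg hZ p2
  have c3 : ct (l + ξ + (l + η)) ≤ 1 := by
    have h := ct_le (s := π / 2) (t := l + ξ + (l + η)) (by linarith) (by linarith) (by linarith)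
    have e : ct (π / 2) = 1 := by
      unfold ct
      rw [show π / 2 / 2 = π / 4 by ring, Real.cos_pi_div_four, Real.sin_pi_div_four]
      exact div_self (by positivity)
    rwa [e] at h
  have c4 := pow3_le c3
  rw [one_pow] at c4
  linarith

end PP

theorem ptNN {l ζ η : ℝ} (hl1 : l ≤ π / 2) (hζ : ζ ∈ Ioo (0:ℝ) l) (hη : η ∈ Ioo (0:ℝ) l)
    (hne : ζ ≠ η) :
    -k3 (ct ζ) (ct η) - l1k (ct ζ) (ct η) ≤
    -(8 * π * kT l (l - ζ) (l - η)) + 9 / 2 * ct (l - ζ + (l - η)) ^ 3 := by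
  have hpi := Real.pi_pos
  obtain ⟨a0, a1⟩ := hζ
  obtain ⟨b0, b1⟩ := hη
  have h := kT_NN (l := l) (x := l - ζ) (y := l - η) (by linarith) ⟨by linarith, by linarith⟩
    ⟨by linarith, by linarith⟩ (by intro h; exact hne (by linarith))
  rw [sub_sub_cancel, sub_sub_cancel] at h
  rw [h]
  have hX := tn_pos a0 (by linarith : ζ < π)
  have hZ := tn_pos b0 (by linarith : η < π)
  have c3 : 0 ≤ ct (l - ζ + (l - η)) := ct_nonneg (by linarith) (by linarith)
  have g : ∀ {s t : ℝ}, 0 < s → s < l → 0 < t → t < l → 0 ≤ gk (-ct (l + (l - t))) (ct s) := by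
    intro s t s0 s1 t0 t1
    have hs := tn_pos s0 (by linarith : s < π)
    rw [ct_tn s0 (by linarith)]
    refine gk_inv_nonneg hs ?_
    have h1 : ct (l + (l - t)) < ct s := by
      have a1 := sin_pos_h (t := s) s0 (by linarith)
      have a2 := sin_pos_h (t := l + (l - t)) (by linarith) (by linarith)
      have a3 := sin_pos_h (t := l + (l - t) - s) (by linarith) (by linarith)
      have e : ct s - ct (l + (l - t)) = Real.sin ((l + (l - t) - s) / 2) /
          (Real.sin (s / 2) * Real.sin ((l + (l - t)) / 2)) := by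
        unfold ct
        rw [show (l + (l - t) - s) / 2 = (l + (l - t)) / 2 - s / 2 by ring, Real.sin_sub]
        field_simp
      have : 0 < ct s - ct (l + (l - t)) := by
        rw [e]
        positivity
      linarith
    rw [ct_tn s0 (by linarith)] at h1
    have h2 := mul_lt_mul_of_pos_left h1 hs
    rw [mul_one_div_cancel hs.ne'] at h2
    linarith
  have g1 := g a0 a1 b0 b1
  have g2 := g b0 b1 a0 a1
  have c4 : 0 ≤ ct (l - ζ + (l - η)) ^ 3 := by positivity
  linarith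

theorem ptPN {l ξ ζ μ : ℝ} (hl : 0 < l) (hl1 : l ≤ π / 2) (hξ : ξ ∈ Ioo (0:ℝ) (π - l))
    (hζ : ζ ∈ Ioo (0:ℝ) l) (hμ : 0 < μ) (hμ1 : μ ≤ 1) (hμl : μ * Real.cos l ≤ Real.sin l) :
    kpn (μ / 16) (tn ξ) (tn ζ) ≤
    8 * π * kTx l (l + ξ) (l - ζ) - 9 * ct (l + ξ - (l - ζ)) ^ 3 := by
  have hpi := Real.pi_pos
  obtain ⟨a0, a1⟩ := hξ
  obtain ⟨b0, b1⟩ := hζ
  have h := kTx_PN (l := l) (x := l + ξ) (y := l - ζ) ⟨by linarith, by linarith⟩
    ⟨by linarith, by linarith⟩
  rw [sub_sub_cancel, add_sub_cancel_left, show l + (l - ζ) = 2 * l - ζ by ring,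
    show l + (l + ξ) = 2 * l + ξ by ring] at h
  rw [h, show l + ξ - (l - ζ) = ξ + ζ by ring]
  have hX := tn_pos a0 (by linarith : ξ < π)
  have hZ := tn_pos b0 (by linarith : ζ < π)
  have hs : 0 < Real.sin l := Real.sin_pos_of_pos_of_lt_pi hl (by linarith)
  have hc : 0 ≤ Real.cos l := Real.cos_nonneg_of_mem_Icc ⟨by linarith, by linarith⟩
  -- the distance of the mirror images
  have m1a : 0 ≤ ct (2 * l - ζ) := ct_nonneg (by linarith) (by linarith)
  have m1b : ct (2 * l - ζ) ≤ 1 / tn ζ := by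
    rw [← ct_tn b0 (by linarith)]
    exact ct_le b0 (by linarith) (by linarith)
  have hden1 : 0 < Real.sin l - tn ζ * Real.cos l := by
    have h1 := Real.sin_pos_of_pos_of_lt_pi (x := l - ζ / 2) (by linarith) (by linarith)
    have h2 := cos_pos_h (t := ζ) (by linarith) (by linarith)
    rw [Real.sin_sub] at h1
    have e : Real.sin l - tn ζ * Real.cos l =
        (Real.sin l * Real.cos (ζ / 2) - Real.cos l * Real.sin (ζ / 2)) / Real.cos (ζ / 2) := by
      unfold tn
      rw [Real.tan_eq_sin_div_cos]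
      field_simp
    rw [e]
    positivity
  have hden2 : 0 < Real.sin l + tn ξ * Real.cos l := by positivity
  have e1 := ct_minus (l := l) b0 (by linarith : ζ < π)
  have e2 := ct_plus (l := l) a0 (by linarith : ξ < π)
  -- `2 Z cos l ≤ sin l`
  have hZl : 2 * tn ζ * Real.cos l ≤ Real.sin l := by
    have h1 : tn ζ ≤ Real.tan (l / 2) := by
      unfold tn
      exact (Real.tan_lt_tan_of_nonneg_of_lt_pi_div_two (by linarith) (by linarith)
        (by linarith)).le
    have h2 := cos_pos_h (t := l) (by linarith) (by linarith)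
    have h3 := sin_pos_h (t := l) hl (by linarith)
    have h4 : 2 * Real.tan (l / 2) * Real.cos l ≤ Real.sin l := by
      have e3 : Real.sin l = 2 * Real.sin (l / 2) * Real.cos (l / 2) := by
        rw [← Real.sin_two_mul]
        congr 1
        ring
      have e4 : Real.cos l = 2 * Real.cos (l / 2) ^ 2 - 1 := by
        rw [← Real.cos_two_mul]
        congr 1
        ring
      rw [e3, e4, Real.tan_eq_sin_div_cos]
      have h5 : Real.cos (l / 2) ^ 2 ≤ 1 := Real.cos_sq_le_one _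
      have e5 : 2 * (Real.sin (l / 2) / Real.cos (l / 2)) * (2 * Real.cos (l / 2) ^ 2 - 1) =
          2 * Real.sin (l / 2) * (2 * Real.cos (l / 2) ^ 2 - 1) / Real.cos (l / 2) := by
        ring
      rw [e5, div_le_iff₀ h2]
      nlinarith
    nlinarith
  have c1 := core_T1 hX m1a m1b
  have c2 : gk (-ct (2 * l + ξ)) (1 / tn ζ) ≤ gk (1 / tn ξ) (1 / tn ζ) := by
    refine core_T2 hX hZ ?_ ?_
    · rw [e2, div_mul_eq_mul_div, div_le_one hden2]
      nlinarith [mul_pos hX hX, mul_pos hX hZ, mul_pos (mul_pos hX hX) hs,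
        mul_pos (mul_pos hX hZ) hs]
    · rw [← ct_tn a0 (by linarith)]
      exact ct_sum_pos a0 (by linarith) (by linarith) (by linarith) (by linarith)
  have c3 : ct (ξ + ζ) ^ 3 ≤ 1 / (tn ξ + tn ζ) ^ 3 := by
    have h1 : ct (ξ + ζ) ≤ 1 / (tn ξ + tn ζ) := by
      have d1 := sin_pos_h (t := ξ) a0 (by linarith)
      have d2 := sin_pos_h (t := ζ) b0 (by linarith)
      have d3 := sin_pos_h (t := ξ + ζ) (by linarith) (by linarith)
      have h := ct_sum (x := ξ) (l := 0) (y := -ζ) (by rw [sub_zero]; exact d1.ne')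
        (by rw [zero_sub, neg_neg]; exact d2.ne') (by rw [sub_neg_eq_add]; exact d3.ne')
      rw [sub_zero, zero_sub, neg_neg, sub_neg_eq_add, ct_tn a0 (by linarith),
        ct_tn b0 (by linarith)] at h
      rw [le_div_iff₀ (by positivity)]
      have h2 : ct (ξ + ζ) * (tn ξ + tn ζ) = 1 - tn ξ * tn ζ := by
        field_simp at h
        linarith
      rw [h2]
      nlinarith [mul_pos hX hZ]
    have := pow3_le h1
    rwa [one_div, inv_pow, ← one_div] at this
  rw [ct_tn a0 (by linarith), ct_tn b0 (by linarith)]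
  unfold kpn
  have e9 : 9 / (tn ξ + tn ζ) ^ 3 = 9 * (1 / (tn ξ + tn ζ) ^ 3) := by ring
  rw [e9]
  split_ifs with hR
  · obtain ⟨r1, r2⟩ := hR
    have q1 := core_T1sq hX hZ m1a hμ r1 r2 (by
      rw [e1, div_mul_eq_mul_div, div_le_iff₀ hden1]
      have t1 : tn ζ * Real.cos l ≤ Real.sin l / 16 := by nlinarith
      have t2 : μ * (tn ζ * Real.sin l) ≤ Real.sin l / 16 := by
        have : μ * tn ζ ≤ 1 / 16 := by nlinarith
        nlinarith
      nlinarith)
    have q2 := core_T2sq (m := ct (2 * l + ξ)) hX hZ hμ hμ1 r1 r2 (by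
      rw [e2, div_mul_eq_mul_div, div_le_one hden2]
      nlinarith [mul_pos hX hs, mul_nonneg hX.le hc]) (by
      rw [e2, le_div_iff₀ hden2]
      have : tn ξ ≤ 1 := by linarith
      nlinarith [mul_nonneg hX.le hc])
    unfold LS
    linarith
  · linarith

end Pool.Agent.H12.DE
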