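import Pool.Agent.H12.DE.TKer
import Pool.Agent.H44.DE.Defs

/-!
# Project DE: the kernels `kT`, `kTx` in cotangent variables

With `Y = ct (x-l)`, and a source at `y`: `m = ct (l-y)`; the effect of a unit charge at `y` on the weight
at `x` is `-(gk m Y + c(x))/(4π)`, `gk y z = (z+z³)(log(1+y/z) - y/(y+z))`.  Hence
`8π kT l x y = gk(ct(l+y), ct(x-l)) - gk(ct(l-y), ct(x-l)) + (x ↔ y)`,
`8π kTx l x y = 2 (gk(ct(l-y), ct(x-l)) - gk(ct(l+y), ct(x-l)) + gk(ct(l+x), ct(y-l)) - gk(ct(l-x), ct(y-l)))`.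
-/

set_option autoImplicit false
open Real Set MeasureTheory Filter Topology

namespace Pool.Agent.H12.DE
open Pool.Agent.H45.FL Pool.Agent.H51.DG Pool.Agent.H45.DY Pool.Agent.H90.DC Pool.Agent.H90.DE

section base
variable {x y l : ℝ}

theorem ct_add_eq (h1 : Real.sin ((x - l) / 2) ≠ 0) (h2 : Real.sin ((l - y) / 2) ≠ 0) :
    ct (x - l) + ct (l - y) =
      Real.sin ((x - y) / 2) / (Real.sin ((x - l) / 2) * Real.sin ((l - y) / 2)) := by
  unfold ct
  rw [show (x - y) / 2 = (x - l) / 2 + (l - y) / 2 by ring, Real.sin_add]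
  field_simp
  ring

theorem ct_sum (h1 : Real.sin ((x - l) / 2) ≠ 0) (h2 : Real.sin ((l - y) / 2) ≠ 0)
    (h3 : Real.sin ((x - y) / 2) ≠ 0) :
    ct (x - y) * (ct (x - l) + ct (l - y)) = ct (x - l) * ct (l - y) - 1 := by
  rw [ct_add_eq h1 h2]
  unfold ct
  rw [show (x - y) / 2 = (x - l) / 2 + (l - y) / 2 by ring] at h3 ⊢
  generalize (x - l) / 2 = a at *
  generalize (l - y) / 2 = b at *
  rw [Real.cos_add]
  field_simp

theorem log_diff (h1 : Real.sin ((x - l) / 2) ≠ 0) (h2 : Real.sin ((l - y) / 2) ≠ 0)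
    (h3 : Real.sin ((x - y) / 2) ≠ 0) :
    Real.log (Real.sin ((x - y) / 2)) - Real.log (Real.sin ((l - y) / 2)) =
      Real.log (Real.sin ((x - l) / 2)) + Real.log (ct (x - l) + ct (l - y)) := by
  rw [ct_add_eq h1 h2, Real.log_div h3 (mul_ne_zero h1 h2), Real.log_mul h1 h2]
  ring

/-- the effect of a source at `y` on the target at `x` -/
theorem eff (h1 : Real.sin ((x - l) / 2) ≠ 0) (h2 : Real.sin ((l - y) / 2) ≠ 0)
    (h3 : Real.sin ((x - y) / 2) ≠ 0) (h4 : ct (x - l) ≠ 0) :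
    4 * (Pc (x - l) * ct (x - y) + dPh (x - l) *
      (Real.log (Real.sin ((x - y) / 2)) - Real.log (Real.sin ((l - y) / 2)))) =
    -gk (ct (l - y)) (ct (x - l)) - (ct (x - l) + (ct (x - l) + ct (x - l) ^ 3) *
      (Real.log (ct (x - l)) + Real.log (Real.sin ((x - l) / 2)))) := by
  have e1 := ct_sum h1 h2 h3
  have e2 := ct_add_eq h1 h2
  have hne : ct (x - l) + ct (l - y) ≠ 0 := by
    rw [e2]
    exact div_ne_zero h3 (mul_ne_zero h1 h2)
  have e3 : ct (x - y) = (ct (x - l) * ct (l - y) - 1) / (ct (x - l) + ct (l - y)) :=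
    (eq_div_iff hne).2 e1
  rw [log_diff h1 h2 h3, e3]
  unfold Pc dPh gk
  have e4 : Real.log (1 + ct (l - y) / ct (x - l)) =
      Real.log (ct (x - l) + ct (l - y)) - Real.log (ct (x - l)) := by
    rw [← Real.log_div hne h4]
    congr 1
    field_simp
  rw [e4]
  have hne' : ct (l - y) + ct (x - l) ≠ 0 := by rwa [add_comm]
  generalize ct (x - l) = Y at *
  generalize ct (l - y) = m at *
  generalize Real.log (Y + m) = A at *
  generalize Real.log Y = B at *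
  generalize Real.log (Real.sin ((x - l) / 2)) = C at *
  rw [add_comm m Y]
  field_simp
  ring

end base

/-- one-sided effect of the pair of sources `y`, `-y` on the weight at `x` -/
noncomputable def E1 (l x y : ℝ) : ℝ :=
  Pc (x - l) * (ct (x - y) - ct (x + y)) + dPh (x - l) * (Lg x y - Lg l y)

theorem kT_E1 (l x y : ℝ) : 8 * π * kT l x y = 4 * (E1 l x y + E1 l y x) := by
  unfold kT E1
  rw [ct_anti x y, Lg_symm x y, add_comm y x]
  have := Real.pi_ne_zero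
  field_simp
  ring

theorem kTx_E1 (l x y : ℝ) : 8 * π * kTx l x y = 8 * (-E1 l x y + E1 l y x) := by
  unfold kTx E1
  rw [ct_anti x y, Lg_symm x y, add_comm y x]
  have := Real.pi_ne_zero
  field_simp
  ring

theorem sin_half_ne {t : ℝ} (h1 : -(2 * π) < t) (h2 : t < 2 * π) (h3 : t ≠ 0) :
    Real.sin (t / 2) ≠ 0 := by
  have hpi := Real.pi_pos
  rcases lt_or_gt_of_ne h3 with h | h
  · have := Real.sin_neg_of_neg_of_neg_pi_lt (x := t / 2) (by linarith) (by linarith)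
    exact this.ne
  · exact (Real.sin_pos_of_pos_of_lt_pi (by linarith) (by linarith)).ne'

theorem ct_ne_zero {t : ℝ} (h1 : -π < t) (h2 : t < π) (h3 : t ≠ 0) : ct t ≠ 0 := by
  have hpi := Real.pi_pos
  unfold ct
  refine div_ne_zero ?_ (sin_half_ne (by linarith) (by linarith) h3)
  exact (Real.cos_pos_of_mem_Ioo ⟨by linarith, by linarith⟩).ne'

theorem E1_eq {l x y : ℝ} (hl0 : 0 < l) (hl1 : l < π) (hx : x ∈ Ioo (0:ℝ) π) (hy : y ∈ Ioo (0:ℝ) π)
    (h1 : x ≠ y) (h2 : x ≠ l) (h3 : y ≠ l) :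
    4 * E1 l x y = gk (ct (l + y)) (ct (x - l)) - gk (ct (l - y)) (ct (x - l)) := by
  have hpi := Real.pi_pos
  obtain ⟨x0, x1⟩ := hx
  obtain ⟨y0, y1⟩ := hy
  have s1 : Real.sin ((x - l) / 2) ≠ 0 :=
    sin_half_ne (by linarith) (by linarith) (sub_ne_zero.2 h2)
  have s2 : Real.sin ((l - y) / 2) ≠ 0 :=
    sin_half_ne (by linarith) (by linarith) (sub_ne_zero.2 (Ne.symm h3))
  have s3 : Real.sin ((x - y) / 2) ≠ 0 :=
    sin_half_ne (by linarith) (by linarith) (sub_ne_zero.2 h1)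
  have s4 : Real.sin ((l - -y) / 2) ≠ 0 :=
    sin_half_ne (by linarith) (by linarith) (by linarith)
  have s5 : Real.sin ((x - -y) / 2) ≠ 0 :=
    sin_half_ne (by linarith) (by linarith) (by linarith)
  have c1 : ct (x - l) ≠ 0 := ct_ne_zero (by linarith) (by linarith) (sub_ne_zero.2 h2)
  have e1 := eff s1 s2 s3 c1
  have e2 := eff s1 s4 s5 c1
  rw [sub_neg_eq_add, sub_neg_eq_add] at e2
  unfold E1 Lg
  have e3 : 4 * (Pc (x - l) * (ct (x - y) - ct (x + y)) + dPh (x - l) *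
      (Real.log (Real.sin ((x - y) / 2)) - Real.log (Real.sin ((x + y) / 2)) -
      (Real.log (Real.sin ((l - y) / 2)) - Real.log (Real.sin ((l + y) / 2))))) =
      4 * (Pc (x - l) * ct (x - y) + dPh (x - l) *
      (Real.log (Real.sin ((x - y) / 2)) - Real.log (Real.sin ((l - y) / 2)))) -
      4 * (Pc (x - l) * ct (x + y) + dPh (x - l) *
      (Real.log (Real.sin ((x + y) / 2)) - Real.log (Real.sin ((l + y) / 2)))) := by
    ring
  rw [e3, e1, e2]
  ring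

theorem gk_neg (m z : ℝ) : gk m (-z) = -gk (-m) z := by
  unfold gk
  rw [div_neg, neg_div, show m / (m + -z) = -m / (-m + z) by
    rw [← neg_div_neg_eq, neg_add, neg_neg]]
  ring

/-- like-sign self kernel -/
theorem gk_self {Y Z : ℝ} (hYZ : Y ≠ Z) : gk (-Z) Y + gk (-Y) Z = k3 Y Z + l1k Y Z := by
  unfold gk k3 l1k
  have h1 : -Z + Y ≠ 0 := by
    intro h
    exact hYZ (by linarith)
  have h2 : -Y + Z ≠ 0 := by
    intro h
    exact hYZ (by linarith)
  rw [show 1 + -Z / Y = 1 - Z / Y by ring, show 1 + -Y / Z = 1 - Y / Z by ring]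
  have e : -Y / (-Y + Z) = Y / (Y - Z) := by
    rw [← neg_div_neg_eq, neg_neg, neg_add, neg_neg, ← sub_eq_add_neg]
  have e' : -Z / (-Z + Y) = -Z / (Y - Z) := by
    congr 1
    ring
  rw [e, e']
  have h3 : Y - Z ≠ 0 := sub_ne_zero.2 hYZ
  field_simp
  ring

theorem kT_gk {l x y : ℝ} (hl0 : 0 < l) (hl1 : l < π) (hx : x ∈ Ioo (0:ℝ) π)
    (hy : y ∈ Ioo (0:ℝ) π) (h1 : x ≠ y) (h2 : x ≠ l) (h3 : y ≠ l) :
    8 * π * kT l x y = gk (ct (l + y)) (ct (x - l)) - gk (ct (l - y)) (ct (x - l)) +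
      (gk (ct (l + x)) (ct (y - l)) - gk (ct (l - x)) (ct (y - l))) := by
  rw [kT_E1, mul_add, E1_eq hl0 hl1 hx hy h1 h2 h3, E1_eq hl0 hl1 hy hx (Ne.symm h1) h3 h2]

theorem ct_inj {s t : ℝ} (hs : s ∈ Ioo (0:ℝ) π) (ht : t ∈ Ioo (0:ℝ) π) (h : s ≠ t) :
    ct s ≠ ct t := by
  intro hc
  obtain ⟨s0, s1⟩ := hs
  obtain ⟨t0, t1⟩ := ht
  have a1 : Real.sin (s / 2) ≠ 0 := sin_half_ne (by linarith) (by linarith) s0.ne'
  have a2 : Real.sin (t / 2) ≠ 0 := sin_half_ne (by linarith) (by linarith) t0.ne'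
  unfold ct at hc
  rw [div_eq_div_iff a1 a2] at hc
  have h3 : Real.sin ((t - s) / 2) = 0 := by
    rw [show (t - s) / 2 = t / 2 - s / 2 by ring, Real.sin_sub]
    linarith
  exact sin_half_ne (by linarith) (by linarith) (sub_ne_zero.2 (Ne.symm h)) h3

/-- both points on the arc `(l,π)` -/
theorem kT_PP {l x y : ℝ} (hl0 : 0 < l) (hx : x ∈ Ioo l π) (hy : y ∈ Ioo l π) (h1 : x ≠ y) :
    8 * π * kT l x y = -k3 (ct (x - l)) (ct (y - l)) - l1k (ct (x - l)) (ct (y - l)) +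
      gk (ct (l + y)) (ct (x - l)) + gk (ct (l + x)) (ct (y - l)) := by
  have hpi := Real.pi_pos
  obtain ⟨x0, x1⟩ := hx
  obtain ⟨y0, y1⟩ := hy
  rw [kT_gk hl0 (by linarith) ⟨by linarith, x1⟩ ⟨by linarith, y1⟩ h1 x0.ne' y0.ne',
    ct_anti y l, ct_anti x l]
  have hne : ct (x - l) ≠ ct (y - l) := ct_inj ⟨by linarith, by linarith⟩
    ⟨by linarith, by linarith⟩ (by intro h; exact h1 (by linarith))
  have := gk_self hne
  linarith

/-- both points on the arc `(0,l)` -/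
theorem kT_NN {l x y : ℝ} (hl1 : l < π) (hx : x ∈ Ioo 0 l) (hy : y ∈ Ioo 0 l) (h1 : x ≠ y) :
    -(8 * π * kT l x y) = -k3 (ct (l - x)) (ct (l - y)) - l1k (ct (l - x)) (ct (l - y)) +
      gk (-ct (l + y)) (ct (l - x)) + gk (-ct (l + x)) (ct (l - y)) := by
  have hpi := Real.pi_pos
  obtain ⟨x0, x1⟩ := hx
  obtain ⟨y0, y1⟩ := hy
  rw [kT_gk (by linarith) hl1 ⟨x0, by linarith⟩ ⟨y0, by linarith⟩ h1 x1.ne y1.ne,
    ct_anti l x, ct_anti l y, gk_neg, gk_neg, gk_neg, gk_neg]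
  have hne : ct (l - x) ≠ ct (l - y) := ct_inj ⟨by linarith, by linarith⟩
    ⟨by linarith, by linarith⟩ (by intro h; exact h1 (by linarith))
  have := gk_self hne
  linarith

/-- `x` on the arc `(l,π)`, `y` on the arc `(0,l)` -/
theorem kTx_PN {l x y : ℝ} (hx : x ∈ Ioo l π) (hy : y ∈ Ioo 0 l) :
    8 * π * kTx l x y = 2 * (gk (ct (l - y)) (ct (x - l)) - gk (ct (l + y)) (ct (x - l)) +
      gk (ct (x - l)) (ct (l - y)) - gk (-ct (l + x)) (ct (l - y))) := by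
  have hpi := Real.pi_pos
  obtain ⟨x0, x1⟩ := hx
  obtain ⟨y0, y1⟩ := hy
  have hxy : x ≠ y := by
    intro h
    linarith
  have e1 := E1_eq (l := l) (x := x) (y := y) (by linarith) (by linarith) ⟨by linarith, x1⟩
    ⟨y0, by linarith⟩ hxy x0.ne' y1.ne
  have e2 := E1_eq (l := l) (x := y) (y := x) (by linarith) (by linarith) ⟨y0, by linarith⟩
    ⟨by linarith, x1⟩ (Ne.symm hxy) y1.ne x0.ne'
  rw [ct_anti l y, ct_anti x l, gk_neg, gk_neg, neg_neg] at e2
  rw [kTx_E1]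
  linarith

end Pool.Agent.H12.DE
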