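import Pool.Agent.H44.DE.Defs

/-!
# Project DE: the function `phi0 r = log (1+r) - r/(1+r)` and the kernels `gk`, `L0`
-/

set_option autoImplicit false
open Real Set MeasureTheory Filter Topology

namespace Pool.Agent.H12.DE
open Pool.Agent.H45.FL Pool.Agent.H51.DG Pool.Agent.H45.DY Pool.Agent.H90.DC Pool.Agent.H90.DE
open Pool.Agent.H44.DE

noncomputable def phi0 (r : ℝ) : ℝ := Real.log (1 + r) - r / (1 + r)

theorem phi0_nonneg {r : ℝ} (h : -1 < r) : 0 ≤ phi0 r := by
  have h1 : 0 < 1 + r := by linarith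
  have h2 := Real.one_sub_inv_le_log_of_pos h1
  have e : 1 - (1 + r)⁻¹ = r / (1 + r) := by
    field_simp
    ring
  unfold phi0
  linarith

/-- exact difference -/
theorem phi0_sub {r s : ℝ} (hr : -1 < r) (hs : -1 < s) :
    phi0 r - phi0 s = Real.log ((1 + r) / (1 + s)) - (r - s) / ((1 + r) * (1 + s)) := by
  have h1 : 0 < 1 + r := by linarith
  have h2 : 0 < 1 + s := by linarith
  rw [Real.log_div h1.ne' h2.ne']
  unfold phi0
  field_simp
  ring

theorem phi0_mono {r s : ℝ} (hs : 0 ≤ s) (h : s ≤ r) : phi0 s ≤ phi0 r := by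
  have h1 : 0 < 1 + r := by linarith
  have h2 : 0 < 1 + s := by linarith
  have e := phi0_sub (r := r) (s := s) (by linarith) (by linarith)
  have h3 := Real.one_sub_inv_le_log_of_pos (div_pos h1 h2)
  have e1 : 1 - ((1 + r) / (1 + s))⁻¹ = (r - s) / (1 + r) := by
    rw [inv_div]
    field_simp
    ring
  have e2 : (r - s) / ((1 + r) * (1 + s)) ≤ (r - s) / (1 + r) := by
    rw [← div_div]
    exact div_le_self (div_nonneg (by linarith) h1.le) (by linarith)
  linarith

theorem phi0_anti {r s : ℝ} (hs : -1 < s) (h : s ≤ r) (hr : r ≤ 0) : phi0 r ≤ phi0 s := by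
  have h1 : 0 < 1 + r := by linarith
  have h2 : 0 < 1 + s := by linarith
  have e := phi0_sub (r := s) (s := r) (by linarith) (by linarith)
  have h3 := Real.one_sub_inv_le_log_of_pos (div_pos h2 h1)
  have e1 : 1 - ((1 + s) / (1 + r))⁻¹ = (s - r) / (1 + s) := by
    rw [inv_div]
    field_simp
    ring
  have e2 : (s - r) / ((1 + s) * (1 + r)) ≤ (s - r) / (1 + s) := by
    rw [← div_div, div_le_iff₀ h1]
    have h4 : (s - r) / (1 + s) ≤ 0 := div_nonpos_of_nonpos_of_nonneg (by linarith) h2.le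
    nlinarith
  linarith

theorem phi0_sub_le {r s : ℝ} (hs : 0 ≤ s) (h : s ≤ r) : phi0 r - phi0 s ≤ (r - s) * r := by
  have h1 : 0 < 1 + r := by linarith
  have h2 : 0 < 1 + s := by linarith
  have e := phi0_sub (r := r) (s := s) (by linarith) (by linarith)
  have h3 := Real.log_le_sub_one_of_pos (div_pos h1 h2)
  have e1 : (1 + r) / (1 + s) - 1 = (r - s) / (1 + s) := by
    field_simp
    ring
  have e2 : (r - s) / (1 + s) - (r - s) / ((1 + r) * (1 + s)) = (r - s) * r / ((1 + r) * (1 + s)) := by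
    field_simp
    ring
  have e3 : (r - s) * r / ((1 + r) * (1 + s)) ≤ (r - s) * r := by
    apply div_le_self
    · exact mul_nonneg (by linarith) (by linarith)
    · nlinarith
  linarith

theorem phi0_half {r : ℝ} (h : 0 ≤ r) : phi0 r ≤ r ^ 2 / 2 := by
  have h1 : 0 < 1 + r := by linarith
  have hs0 : 0 ≤ r / (1 + r) := div_nonneg h h1.le
  have hs1 : r / (1 + r) < 1 := by
    rw [div_lt_one h1]
    linarith
  have h2 := Real.abs_log_sub_add_sum_range_le (x := r / (1 + r)) (by rwa [abs_of_nonneg hs0]) 2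
  rw [Finset.sum_range_succ, Finset.sum_range_one, abs_of_nonneg hs0] at h2
  have e1 : 1 - r / (1 + r) = (1 + r)⁻¹ := by
    field_simp
    ring
  rw [e1, Real.log_inv] at h2
  have h3 := (abs_le.1 h2).1
  norm_num at h3
  have e2 : (r / (1 + r)) ^ 3 * (1 + r) = r ^ 3 / (1 + r) ^ 2 := by
    field_simp
  have e3 : (r / (1 + r)) ^ 2 / 2 + r ^ 3 / (1 + r) ^ 2 ≤ r ^ 2 / 2 := by
    have e4 : (r / (1 + r)) ^ 2 / 2 + r ^ 3 / (1 + r) ^ 2 = r ^ 2 * (1 + 2 * r) / (2 * (1 + r) ^ 2) := by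
      field_simp
    rw [e4, div_le_div_iff₀ (by positivity) (by norm_num)]
    nlinarith [mul_nonneg (sq_nonneg r) (sq_nonneg r)]
  unfold phi0
  have h4 : (r / (1 + r)) ^ 3 * (1 + r) = (r / (1 + r)) ^ 3 / (1 + r)⁻¹ := by
    rw [div_inv_eq_mul]
  linarith

theorem phi0_low {r : ℝ} (h : 0 ≤ r) : r ^ 2 / (2 * (1 + r) ^ 2) ≤ phi0 r := by
  have h1 : 0 < 1 + r := by linarith
  have h2 := Real.le_log_one_add_of_nonneg h
  have e : r ^ 2 / (2 * (1 + r) ^ 2) ≤ 2 * r / (r + 2) - r / (1 + r) := by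
    have e1 : 2 * r / (r + 2) - r / (1 + r) = r ^ 2 / ((r + 2) * (1 + r)) := by
      field_simp
      ring
    rw [e1]
    apply div_le_div_of_nonneg_left (sq_nonneg r) (by positivity)
    nlinarith
  unfold phi0
  linarith

theorem log_one_sub_le {q : ℝ} (h0 : 0 ≤ q) (h1 : q < 1) :
    q + q ^ 2 / 2 + q ^ 3 / 3 ≤ -Real.log (1 - q) := by
  have h := Real.hasSum_pow_div_log_of_abs_lt_one (x := q) (by rwa [abs_of_nonneg h0])
  have h2 := sum_le_hasSum (Finset.range 3) (fun i _ => by positivity) h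
  rw [Finset.sum_range_succ, Finset.sum_range_succ, Finset.sum_range_one] at h2
  norm_num at h2
  linarith

theorem phi0_neg_le {q : ℝ} (h0 : 0 ≤ q) (h1 : q ≤ 1 / 16) : phi0 (-q) ≤ 17 / 30 * q ^ 2 := by
  have h2 := log_one_sub_le h0 (by linarith)
  have h3 : 0 < 1 - q := by linarith
  unfold phi0
  rw [← sub_eq_add_neg]
  have e : -q / (1 - q) = -(q + q ^ 2 / (1 - q)) := by
    field_simp
    ring
  rw [e]
  have h4 : q ^ 2 / (1 - q) ≤ 16 / 15 * q ^ 2 := by
    rw [div_le_iff₀ h3]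
    nlinarith [sq_nonneg q]
  have h5 : 0 ≤ q ^ 3 := by positivity
  nlinarith

theorem frac_eq {y z : ℝ} (hz : z ≠ 0) : y / (y + z) = y / z / (1 + y / z) := by
  have e : 1 + y / z = (y + z) / z := by
    field_simp
    ring
  rw [e, div_div_div_cancel_right₀ hz]

theorem gk_phi {y z : ℝ} (hz : z ≠ 0) : gk y z = (z + z ^ 3) * phi0 (y / z) := by
  unfold gk phi0
  rw [frac_eq hz]

theorem L0_phi {X M : ℝ} (hM : M ≠ 0) : L0 X M = phi0 (X / M) / X ^ 3 := by
  unfold L0 phi0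
  rw [frac_eq hM]

end Pool.Agent.H12.DE
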