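import Pool.Agent.H12.DE.RawB
import Pool.Agent.H51.DG.SF

/-!
# Project DE: re-basing of the two arcs, integrability of bounded forms
-/

set_option autoImplicit false
open Real Set MeasureTheory Filter Topology

namespace Pool.Agent.H12.DE
open Pool.Agent.H45.FL Pool.Agent.H51.DG Pool.Agent.H45.DY Pool.Agent.H90.DC Pool.Agent.H90.DE
open Pool.Agent.H44.DE

/-- change of variables `x = σ ξ`, `y = τ η` in a form -/
theorem rebase {f g f' g' σ τ : ℝ → ℝ} {A B A' B' : Set ℝ}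
    (hσ : MeasurePreserving σ volume volume) (hσe : MeasurableEmbedding σ)
    (hτ : MeasurePreserving τ volume volume) (hτe : MeasurableEmbedding τ)
    (hA : MeasurableSet A) (hB : MeasurableSet B)
    (sA : A ⊆ Ioo (0:ℝ) π) (sB : B ⊆ Ioo (0:ℝ) π)
    (hA' : σ ⁻¹' A = A') (hB' : τ ⁻¹' B = B')
    (sA' : A' ⊆ Ioo (0:ℝ) π) (sB' : B' ⊆ Ioo (0:ℝ) π)
    (f0 : ∀ x ∈ Ioo (0:ℝ) π, x ∉ A → f x = 0) (g0 : ∀ x ∈ Ioo (0:ℝ) π, x ∉ B → g x = 0)
    (f1 : ∀ x ∈ A', f' x = f (σ x)) (g1 : ∀ x ∈ B', g' x = g (τ x))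
    (f2 : ∀ x ∈ Ioo (0:ℝ) π, x ∉ A' → f' x = 0) (g2 : ∀ x ∈ Ioo (0:ℝ) π, x ∉ B' → g' x = 0)
    {K : ℝ × ℝ → ℝ} (hi : IntegrableOn (fun z : ℝ × ℝ => f z.1 * g z.2 * K z) Sq1) :
    IntegrableOn (fun z : ℝ × ℝ => f' z.1 * g' z.2 * K (σ z.1, τ z.2)) Sq1 ∧
    ∫ z in Sq1, f' z.1 * g' z.2 * K (σ z.1, τ z.2) = ∫ z in Sq1, f z.1 * g z.2 * K z := by
  have mp : MeasurePreserving (Prod.map σ τ) volume volume := hσ.prod hτ
  have me : MeasurableEmbedding (Prod.map σ τ) := hσe.prodMap hτe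
  have mAB : MeasurableSet (A ×ˢ B) := hA.prod hB
  have mA' : MeasurableSet A' := by rw [← hA']; exact hσe.measurable hA
  have mB' : MeasurableSet B' := by rw [← hB']; exact hτe.measurable hB
  have mAB' : MeasurableSet (A' ×ˢ B') := mA'.prod mB'
  have pre : Prod.map σ τ ⁻¹' (A ×ˢ B) = A' ×ˢ B' := by
    rw [← hA', ← hB']
    rfl
  have s1 : A ×ˢ B ⊆ Sq1 := Set.prod_mono sA sB
  have s2 : A' ×ˢ B' ⊆ Sq1 := Set.prod_mono sA' sB'
  have v1 : ∀ z ∈ Sq1 \ (A ×ˢ B), f z.1 * g z.2 * K z = 0 := by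
    rintro z ⟨⟨h1, h2⟩, h3⟩
    by_cases h4 : z.1 ∈ A
    · have h5 : z.2 ∉ B := fun h => h3 ⟨h4, h⟩
      rw [g0 _ h2 h5]
      ring
    · rw [f0 _ h1 h4]
      ring
  have v2 : ∀ z ∈ Sq1 \ (A' ×ˢ B'), f' z.1 * g' z.2 * K (σ z.1, τ z.2) = 0 := by
    rintro z ⟨⟨h1, h2⟩, h3⟩
    by_cases h4 : z.1 ∈ A'
    · have h5 : z.2 ∉ B' := fun h => h3 ⟨h4, h⟩
      rw [g2 _ h2 h5]
      ring
    · rw [f2 _ h1 h4]
      ring
  have e1 : ∀ z ∈ A' ×ˢ B', ((fun z : ℝ × ℝ => f z.1 * g z.2 * K z) ∘ Prod.map σ τ) z =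
      f' z.1 * g' z.2 * K (σ z.1, τ z.2) := by
    rintro z ⟨h1, h2⟩
    show f (σ z.1) * g (τ z.2) * K (σ z.1, τ z.2) = _
    rw [f1 _ h1, g1 _ h2]
  have i1 : IntegrableOn (fun z : ℝ × ℝ => f z.1 * g z.2 * K z) (A ×ˢ B) := hi.mono_set s1
  have i2 : IntegrableOn ((fun z : ℝ × ℝ => f z.1 * g z.2 * K z) ∘ Prod.map σ τ) (A' ×ˢ B') := by
    rw [← pre]
    exact (mp.integrableOn_comp_preimage me).2 i1
  have i3 : IntegrableOn (fun z : ℝ × ℝ => f' z.1 * g' z.2 * K (σ z.1, τ z.2)) (A' ×ˢ B') :=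
    i2.congr_fun e1 mAB'
  refine ⟨i3.of_forall_sdiff_eq_zero JKer_ms v2, ?_⟩
  rw [setIntegral_eq_of_subset_of_forall_sdiff_eq_zero JKer_ms s2 v2,
    setIntegral_eq_of_subset_of_forall_sdiff_eq_zero JKer_ms s1 v1,
    ← setIntegral_congr_fun mAB' e1, ← pre]
  exact mp.setIntegral_preimage_emb me (fun z : ℝ × ℝ => f z.1 * g z.2 * K z) _

section arcs
variable {W : ℝ → ℝ} {l : ℝ}

theorem preP : (fun x : ℝ => l + x) ⁻¹' (Ioo l π) = Ioo (0:ℝ) (π - l) := by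
  ext x
  simp only [mem_preimage, mem_Ioo]
  constructor <;> rintro ⟨h1, h2⟩ <;> constructor <;> linarith

theorem preN : (fun x : ℝ => l - x) ⁻¹' (Ioo 0 l) = Ioo (0:ℝ) l := by
  ext x
  simp only [mem_preimage, mem_Ioo]
  constructor <;> rintro ⟨h1, h2⟩ <;> constructor <;> linarith

theorem mpP : MeasurePreserving (fun x : ℝ => l + x) volume volume :=
  measurePreserving_add_left volume l

theorem meP : MeasurableEmbedding (fun x : ℝ => l + x) := measurableEmbedding_addLeft l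

theorem mpN : MeasurePreserving (fun x : ℝ => l - x) volume volume :=
  Measure.measurePreserving_sub_left volume l

theorem meN : MeasurableEmbedding (fun x : ℝ => l - x) :=
  (MeasurableEquiv.subLeft l).measurableEmbedding

theorem aE_in {ξ : ℝ} (h : ξ ∈ Ioo (0:ℝ) (π - l)) : aE W l ξ = bF W (l + ξ) := by
  unfold aE
  rw [if_pos h.2.le]

theorem bE_in {ζ : ℝ} (h : ζ ∈ Ioo (0:ℝ) l) : bE W l ζ = bR W (l - ζ) := by
  unfold bE
  rw [if_pos h.2.le]

theorem aE_out (h : OddE W l) {ξ : ℝ} (h1 : π - l ≤ ξ) : aE W l ξ = 0 := by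
  unfold aE
  split_ifs with h2
  · have : ξ = π - l := le_antisymm h2 h1
    rw [this, add_sub_cancel]
    show max (W π) 0 = 0
    rw [(OddE_zero h).2.2, max_self]
  · rfl

theorem bE_out (h : OddE W l) {ζ : ℝ} (h1 : l ≤ ζ) : bE W l ζ = 0 := by
  unfold bE
  split_ifs with h2
  · have : ζ = l := le_antisymm h2 h1
    rw [this, sub_self]
    show max (-W 0) 0 = 0
    rw [(OddE_zero h).1, neg_zero, max_self]
  · rfl

theorem rebPP (h : OddE W l) {K : ℝ × ℝ → ℝ}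
    (hi : IntegrableOn (fun z : ℝ × ℝ => bF W z.1 * bF W z.2 * K z) Sq1) :
    IntegrableOn (fun z : ℝ × ℝ => aE W l z.1 * aE W l z.2 * K (l + z.1, l + z.2)) Sq1 ∧
    ∫ z in Sq1, aE W l z.1 * aE W l z.2 * K (l + z.1, l + z.2) =
      ∫ z in Sq1, bF W z.1 * bF W z.2 * K z := by
  have f0 : ∀ x ∈ Ioo (0:ℝ) π, x ∉ Ioo l π → bF W x = 0 := by
    intro x hx hn
    refine OddE_a0 h hx.1 ?_
    by_contra hc
    exact hn ⟨not_le.1 hc, hx.2⟩
  have f2 : ∀ x ∈ Ioo (0:ℝ) π, x ∉ Ioo (0:ℝ) (π - l) → aE W l x = 0 := by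
    intro x hx hn
    refine aE_out h ?_
    by_contra hc
    exact hn ⟨hx.1, not_le.1 hc⟩
  exact rebase mpP meP mpP meP measurableSet_Ioo measurableSet_Ioo
    (Ioo_subset_Ioo_left h.l0.le) (Ioo_subset_Ioo_left h.l0.le) preP preP
    (Ioo_subset_Ioo_right (by linarith [h.l0])) (Ioo_subset_Ioo_right (by linarith [h.l0]))
    f0 f0 (fun x hx => aE_in hx) (fun x hx => aE_in hx) f2 f2 hi

theorem rebNN (h : OddE W l) {K : ℝ × ℝ → ℝ}
    (hi : IntegrableOn (fun z : ℝ × ℝ => bR W z.1 * bR W z.2 * K z) Sq1) :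
    IntegrableOn (fun z : ℝ × ℝ => bE W l z.1 * bE W l z.2 * K (l - z.1, l - z.2)) Sq1 ∧
    ∫ z in Sq1, bE W l z.1 * bE W l z.2 * K (l - z.1, l - z.2) =
      ∫ z in Sq1, bR W z.1 * bR W z.2 * K z := by
  have f0 : ∀ x ∈ Ioo (0:ℝ) π, x ∉ Ioo 0 l → bR W x = 0 := by
    intro x hx hn
    refine OddE_b0 h ?_ hx.2
    by_contra hc
    exact hn ⟨hx.1, not_le.1 hc⟩
  have f2 : ∀ x ∈ Ioo (0:ℝ) π, x ∉ Ioo (0:ℝ) l → bE W l x = 0 := by
    intro x hx hn
    refine bE_out h ?_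
    by_contra hc
    exact hn ⟨hx.1, not_le.1 hc⟩
  exact rebase mpN meN mpN meN measurableSet_Ioo measurableSet_Ioo
    (Ioo_subset_Ioo_right h.l1.le) (Ioo_subset_Ioo_right h.l1.le) preN preN
    (Ioo_subset_Ioo_right h.l1.le) (Ioo_subset_Ioo_right h.l1.le)
    f0 f0 (fun x hx => bE_in hx) (fun x hx => bE_in hx) f2 f2 hi

theorem rebPN (h : OddE W l) {K : ℝ × ℝ → ℝ}
    (hi : IntegrableOn (fun z : ℝ × ℝ => bF W z.1 * bR W z.2 * K z) Sq1) :
    IntegrableOn (fun z : ℝ × ℝ => aE W l z.1 * bE W l z.2 * K (l + z.1, l - z.2)) Sq1 ∧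
    ∫ z in Sq1, aE W l z.1 * bE W l z.2 * K (l + z.1, l - z.2) =
      ∫ z in Sq1, bF W z.1 * bR W z.2 * K z := by
  have f0 : ∀ x ∈ Ioo (0:ℝ) π, x ∉ Ioo l π → bF W x = 0 := by
    intro x hx hn
    refine OddE_a0 h hx.1 ?_
    by_contra hc
    exact hn ⟨not_le.1 hc, hx.2⟩
  have f2 : ∀ x ∈ Ioo (0:ℝ) π, x ∉ Ioo (0:ℝ) (π - l) → aE W l x = 0 := by
    intro x hx hn
    refine aE_out h ?_
    by_contra hc
    exact hn ⟨hx.1, not_le.1 hc⟩
  have g0 : ∀ x ∈ Ioo (0:ℝ) π, x ∉ Ioo 0 l → bR W x = 0 := by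
    intro x hx hn
    refine OddE_b0 h ?_ hx.2
    by_contra hc
    exact hn ⟨hx.1, not_le.1 hc⟩
  have g2 : ∀ x ∈ Ioo (0:ℝ) π, x ∉ Ioo (0:ℝ) l → bE W l x = 0 := by
    intro x hx hn
    refine bE_out h ?_
    by_contra hc
    exact hn ⟨hx.1, not_le.1 hc⟩
  exact rebase mpP meP mpN meN measurableSet_Ioo measurableSet_Ioo
    (Ioo_subset_Ioo_left h.l0.le) (Ioo_subset_Ioo_right h.l1.le) preP preN
    (Ioo_subset_Ioo_right (by linarith [h.l0])) (Ioo_subset_Ioo_right h.l1.le)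
    f0 g0 (fun x hx => aE_in hx) (fun x hx => bE_in hx) f2 g2 hi

theorem aE_bd (h : VanE W l) : Bd (aE W l) := by
  obtain ⟨K, hK⟩ := h.lip
  obtain ⟨δ, hδ, hv⟩ := h.van
  have hc : Continuous W := hK.continuous
  have hz := OddE_zero h.toOddE
  refine ⟨?_, ?_, δ, hδ, ?_⟩
  · unfold aE
    refine Continuous.if_le ?_ continuous_const continuous_id continuous_const ?_
    · unfold bF
      fun_prop
    · intro x hx
      have hx' : x = π - l := hx
      rw [hx', add_sub_cancel]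
      show max (W π) 0 = 0
      rw [hz.2.2, max_self]
  · intro x _
    unfold aE
    split_ifs
    · exact le_max_right _ _
    · exact le_rfl
  · intro x h0 h1
    unfold aE
    split_ifs
    · show max (W (l + x)) 0 = 0
      rw [hv (l + x) (by rw [add_sub_cancel_left, abs_of_nonneg h0]; exact h1), max_self]
    · rfl

theorem bE_bd (h : VanE W l) : Bd (bE W l) := by
  obtain ⟨K, hK⟩ := h.lip
  obtain ⟨δ, hδ, hv⟩ := h.van
  have hc : Continuous W := hK.continuous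
  have hz := OddE_zero h.toOddE
  refine ⟨?_, ?_, δ, hδ, ?_⟩
  · unfold bE
    refine Continuous.if_le ?_ continuous_const continuous_id continuous_const ?_
    · unfold bR
      fun_prop
    · intro x hx
      have hx' : x = l := hx
      rw [hx', sub_self]
      show max (-W 0) 0 = 0
      rw [hz.1, neg_zero, max_self]
  · intro x _
    unfold bE
    split_ifs
    · exact le_max_right _ _
    · exact le_rfl
  · intro x h0 h1
    unfold bE
    split_ifs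
    · show max (-W (l - x)) 0 = 0
      rw [hv (l - x) (by rw [sub_sub_cancel_left, abs_neg, abs_of_nonneg h0]; exact h1), neg_zero,
        max_self]
    · rfl

end arcs

theorem tn_meas : Measurable tn := by
  have : tn = fun x => Real.sin (x / 2) / Real.cos (x / 2) := by
    funext x
    unfold tn
    exact Real.tan_eq_sin_div_cos _
  rw [this]
  fun_prop

theorem tn_mono {s t : ℝ} (h0 : 0 ≤ s) (h : s ≤ t) (h1 : t < π) : tn s ≤ tn t := by
  have hpi := Real.pi_pos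
  unfold tn
  rcases h.eq_or_lt with h2 | h2
  · rw [h2]
  · exact (Real.tan_lt_tan_of_nonneg_of_lt_pi_div_two (by linarith) (by linarith) (by linarith)).le

/-- a form with a kernel bounded away from the origin converges -/
theorem TI_bdd {a b : ℝ → ℝ} (ha : Bd a) (hb : Bd b) {K : ℝ → ℝ → ℝ}
    (hm : Measurable (fun z : ℝ × ℝ => K (tn z.1) (tn z.2)))
    (hK : ∀ t : ℝ, 0 < t → ∃ C, ∀ X Z : ℝ, t ≤ X → t ≤ Z → |K X Z| ≤ C) : TI a b K := by
  have hpi := Real.pi_pos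
  obtain ⟨d1, hd1, z1⟩ := ha.z
  obtain ⟨d2, hd2, z2⟩ := hb.z
  obtain ⟨d, hd⟩ : ∃ d, d = min (min d1 d2) 1 := ⟨_, rfl⟩
  have hd0 : 0 < d := by rw [hd]; exact lt_min (lt_min hd1 hd2) one_pos
  have hdd1 : d ≤ d1 := by rw [hd]; exact (min_le_left _ _).trans (min_le_left _ _)
  have hdd2 : d ≤ d2 := by rw [hd]; exact (min_le_left _ _).trans (min_le_right _ _)
  have hdd3 : d ≤ 1 := by rw [hd]; exact min_le_right _ _
  have ht : 0 < tn d := tn_pos hd0 (by linarith [Real.pi_gt_three])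
  obtain ⟨C, hC⟩ := hK (tn d) ht
  obtain ⟨Ca, hCa⟩ := (isCompact_Icc (a := (0:ℝ)) (b := π)).exists_bound_of_continuousOn
    ha.c.continuousOn
  obtain ⟨Cb, hCb⟩ := (isCompact_Icc (a := (0:ℝ)) (b := π)).exists_bound_of_continuousOn
    hb.c.continuousOn
  have hC0 : 0 ≤ C := (abs_nonneg _).trans (hC _ _ le_rfl le_rfl)
  have hCa0 : 0 ≤ Ca := (norm_nonneg _).trans (hCa 0 ⟨le_rfl, hpi.le⟩)
  have hCb0 : 0 ≤ Cb := (norm_nonneg _).trans (hCb 0 ⟨le_rfl, hpi.le⟩)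
  have hfin : volume Sq1 ≠ ⊤ := by
    unfold Sq1
    rw [Measure.volume_eq_prod, Measure.prod_prod]
    exact ENNReal.mul_ne_top measure_Ioo_lt_top.ne measure_Ioo_lt_top.ne
  unfold TI
  refine Measure.integrableOn_of_bounded (M := Ca * Cb * C) hfin
    (((ha.c.measurable.comp measurable_fst).mul
      (hb.c.measurable.comp measurable_snd)).mul hm).aestronglyMeasurable ?_
  refine ae_restrict_of_forall_mem JKer_ms fun z hz => ?_
  obtain ⟨⟨x0, x1⟩, ⟨y0, y1⟩⟩ := hz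
  rw [norm_mul, norm_mul]
  rcases le_or_gt z.1 d with h1 | h1
  · rw [z1 _ x0.le (h1.trans hdd1), norm_zero, zero_mul, zero_mul]
    positivity
  · rcases le_or_gt z.2 d with h2 | h2
    · rw [z2 _ y0.le (h2.trans hdd2), norm_zero, mul_zero, zero_mul]
      positivity
    · have e1 := hC (tn z.1) (tn z.2) (tn_mono hd0.le h1.le x1) (tn_mono hd0.le h2.le y1)
      have e2 := hCa z.1 ⟨x0.le, x1.le⟩
      have e3 := hCb z.2 ⟨y0.le, y1.le⟩
      exact mul_le_mul (mul_le_mul e2 e3 (norm_nonneg _) hCa0) e1 (norm_nonneg _)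
        (by positivity)

end Pool.Agent.H12.DE
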