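import Pool.Agent.H12.DE.TKer

/-!
# Project DE: kernel form of `TF`

`TF_kernel`: for `VanE W l` (class (E), Lipschitz, zero near `l`)
`TF W l = ∫∫ a(x) a(y) kT l x y - ∫∫ b(x) b(y) kT l x y + ∫∫ a(x) b(y) kTx l x y` over `(0,π)²`,
`a = bF W`, `b = bR W`; all parts are integrable.
-/

set_option autoImplicit false
open Real Set MeasureTheory Filter Topology

namespace Pool.Agent.H12.DE
open Pool.Agent.H45.FL Pool.Agent.H51.DG Pool.Agent.H45.DY Pool.Agent.H90.DC Pool.Agent.H90.DE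

theorem dPh_meas : Measurable dPh := by
  unfold dPh
  have := SC_ct_meas
  fun_prop

theorem dPh_bound {ξ s : ℝ} (hs : 0 < s) (h : s ≤ |Real.sin (ξ / 2)|) :
    |dPh ξ| ≤ 1 / s * (1 + (1 / s) ^ 2) / 4 := by
  have hct : |ct ξ| ≤ 1 / s := by
    unfold ct
    rw [abs_div]
    exact div_le_div₀ zero_le_one (Real.abs_cos_le_one _) hs h
  unfold dPh
  rw [abs_neg, abs_div, abs_mul, abs_of_pos (by norm_num : (0:ℝ) < 4),
    abs_of_pos (by positivity : (0:ℝ) < 1 + ct ξ ^ 2)]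
  have h2 : ct ξ ^ 2 ≤ (1 / s) ^ 2 := by
    rw [← sq_abs (ct ξ)]
    gcongr
  gcongr

/-- the sine of the half distance to `l` where `|x - l| > δ` in `(0,π)` -/
theorem sin_away {l x δ : ℝ} (h0 : 0 < l) (h1 : l < π) (hδ : 0 < δ) (hx : x ∈ Ioo (0:ℝ) π)
    (hd : δ < |x - l|) : Real.sin (δ / 2) ≤ |Real.sin ((x - l) / 2)| := by
  have hpi := Real.pi_pos
  have e : |Real.sin ((x - l) / 2)| = Real.sin (|x - l| / 2) := by
    have h3 : |x - l| < π := by
      rw [abs_lt]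
      exact ⟨by linarith [hx.1], by linarith [hx.2]⟩
    rcases le_total 0 (x - l) with h2 | h2
    · rw [abs_of_nonneg h2] at h3 ⊢
      exact abs_of_nonneg (Real.sin_nonneg_of_nonneg_of_le_pi (by linarith) (by linarith))
    · rw [abs_of_nonpos h2] at h3 ⊢
      rw [neg_div, Real.sin_neg]
      refine abs_of_nonpos ?_
      have := Real.sin_nonneg_of_nonneg_of_le_pi (x := -((x - l) / 2)) (by linarith) (by linarith)
      rw [Real.sin_neg] at this
      linarith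
  rw [e]
  have h3 : |x - l| < π := by
    rw [abs_lt]
    exact ⟨by linarith [hx.1], by linarith [hx.2]⟩
  exact Real.sin_le_sin_of_le_of_le_pi_div_two (by linarith) (by linarith) (by linarith)

theorem TF_kernel {W : ℝ → ℝ} {l : ℝ} (h : VanE W l) :
    IntegrableOn (fun z : ℝ × ℝ => bF W z.1 * bF W z.2 * kT l z.1 z.2) Sq1 ∧
    IntegrableOn (fun z : ℝ × ℝ => bR W z.1 * bR W z.2 * kT l z.1 z.2) Sq1 ∧
    IntegrableOn (fun z : ℝ × ℝ => bF W z.1 * bR W z.2 * kTx l z.1 z.2) Sq1 ∧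
    TF W l = (∫ z in Sq1, bF W z.1 * bF W z.2 * kT l z.1 z.2) -
      (∫ z in Sq1, bR W z.1 * bR W z.2 * kT l z.1 z.2) +
      ∫ z in Sq1, bF W z.1 * bR W z.2 * kTx l z.1 z.2 := by
  have hpi := Real.pi_pos
  have hE := h.toOddE
  obtain ⟨K, hK⟩ := h.lip
  have hl0 := h.l0
  have hl1 := h.l1
  have hBW := SD_BL_W h.per ⟨K, hK⟩
  have hWc : Continuous W := Lip.continuous hK
  obtain ⟨z0, zl, zp⟩ := OddE_zero hE
  obtain ⟨δ0, hδ0, hv0⟩ := h.van
  obtain ⟨δ, hδd⟩ : ∃ δ, δ = min δ0 1 := ⟨_, rfl⟩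
  have hδ : 0 < δ := by rw [hδd]; exact lt_min hδ0 one_pos
  have hδ1 : δ ≤ 1 := by rw [hδd]; exact min_le_right _ _
  have hv : ∀ x, |x - l| ≤ δ → W x = 0 := fun x hx =>
    hv0 x (hx.trans (by rw [hδd]; exact min_le_left _ _))
  obtain ⟨s0, hs0d⟩ : ∃ s, s = Real.sin (δ / 2) := ⟨_, rfl⟩
  have hpi3 : (3:ℝ) < π := Real.pi_gt_three
  have hs0 : 0 < s0 := by
    rw [hs0d]; exact Real.sin_pos_of_pos_of_lt_pi (by linarith) (by linarith)
  obtain ⟨g, g1, g2, g3, g4, g5⟩ := cut_part (SD_BL_abs hBW) (by rw [z0, abs_zero])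
    (by rw [zp, abs_zero]) (fun x => abs_nonneg _)
  obtain ⟨Bg, hBg⟩ := g1.bd
  have hBg0 : 0 ≤ Bg := (abs_nonneg _).trans (hBg 0)
  obtain ⟨Kg, hKg⟩ := g1.lip
  -- where `g` lives
  have hgs : ∀ x ∈ Ioo (0:ℝ) (2 * π), g x ≠ 0 → s0 ≤ |Real.sin ((x - l) / 2)| := by
    intro x hx hg
    have hxp : x < π := by
      rcases lt_trichotomy x π with h1 | h1 | h1
      · exact h1
      · exfalso
        apply hg
        have := g5 x
        rw [h1, zp, abs_zero] at this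
        rw [h1]
        exact le_antisymm this (g4 π)
      · exfalso
        apply hg
        have := g3 (2 * π - x) ⟨by linarith [hx.2], by linarith⟩
        rwa [show 2 * π - (2 * π - x) = x by ring] at this
    have hd : δ < |x - l| := by
      by_contra hc
      apply hg
      rw [g2 x ⟨hx.1, hxp⟩, hv x (not_lt.1 hc), abs_zero]
    rw [hs0d]
    exact sin_away hl0 hl1 hδ ⟨hx.1, hxp⟩ hd
  -- the function `g Pc`
  obtain ⟨m, hmd⟩ : ∃ m : ℝ → ℝ, m = fun x => (max |Real.sin ((x - l) / 2)| s0)⁻¹ := ⟨_, rfl⟩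
  have hm : SD_BL m := by
    rw [hmd]
    exact ((SD_BL_shift SD_BL.abssin l).maxc s0).inv hs0 (fun x => le_max_right _ _)
  obtain ⟨F, hFd⟩ : ∃ F : ℝ → ℝ, F = fun x => g x * (1 / 4 * (m x * m x) + (-(1 / 4))) := ⟨_, rfl⟩
  have hF : SD_BL F := by
    rw [hFd]
    exact g1.mul (((SD_BL.const _).mul (hm.mul hm)).add (SD_BL.const _))
  have hFx : ∀ x ∈ Ioo (0:ℝ) (2 * π), F x = g x * Pc (x - l) := by
    intro x hx
    rw [hFd]
    show g x * (1 / 4 * (m x * m x) + (-(1 / 4))) = _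
    by_cases hW : g x = 0
    · rw [hW]; ring
    · have hs := hgs x hx hW
      have hs' : 0 < |Real.sin ((x - l) / 2)| := hs0.trans_le hs
      have hne : Real.sin ((x - l) / 2) ≠ 0 := abs_pos.1 hs'
      have hmx : m x = |Real.sin ((x - l) / 2)|⁻¹ := by
        rw [hmd]
        show (max |Real.sin ((x - l) / 2)| s0)⁻¹ = _
        rw [max_eq_left hs]
      have hmm : m x * m x = (Real.sin ((x - l) / 2))⁻¹ ^ 2 := by
        rw [hmx, ← abs_inv, ← sq, sq_abs]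
      rw [hmm]
      unfold Pc
      rw [JKer_ct_sq hne]
      ring
  have hF2 : ∀ x ∈ Ioo (0:ℝ) π, F (2 * π - x) = 0 := by
    intro x hx
    rw [hFd]
    show g (2 * π - x) * _ = 0
    rw [g3 x hx, zero_mul]
  -- the function `g dPh`
  obtain ⟨P, hPd⟩ : ∃ P : ℝ → ℝ, P = fun x => g x * dPh (x - l) := ⟨_, rfl⟩
  have hPm : Measurable P := by
    rw [hPd]
    exact (Lip.continuous hKg).measurable.mul (dPh_meas.comp (measurable_id.sub_const l))
  obtain ⟨C0, hC0d⟩ : ∃ C0 : ℝ, C0 = Bg * (1 / s0 * (1 + (1 / s0) ^ 2) / 4) := ⟨_, rfl⟩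
  have hC0 : 0 ≤ C0 := by rw [hC0d]; positivity
  have hPb : ∀ x ∈ Ioo (0:ℝ) (2 * π), |P x| ≤ C0 := by
    intro x hx
    rw [hPd]
    show |g x * dPh (x - l)| ≤ _
    by_cases hW : g x = 0
    · rw [hW]; simpa using hC0
    · rw [abs_mul, hC0d]
      exact mul_le_mul (hBg x) (dPh_bound hs0 (hgs x hx hW)) (abs_nonneg _) hBg0
  have hP2 : ∀ x ∈ Ioo (0:ℝ) π, P (2 * π - x) = 0 := by
    intro x hx
    rw [hPd]
    show g (2 * π - x) * _ = 0
    rw [g3 x hx, zero_mul]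
  obtain ⟨f1, f2⟩ := HTfold h.per h.odd hK hF hF2
  obtain ⟨u1, u2⟩ := UUfold h.per h.odd hK hPm hC0 hPb hP2 l
  -- the functional
  obtain ⟨KF, hKF⟩ := hF.lip
  have hsub : Ioo (0:ℝ) π ⊆ Ioo (0:ℝ) (2 * π) := Ioo_subset_Ioo_right (by linarith)
  have hUc : Continuous (UU W) := continuous_iff_continuousAt.2 fun x =>
    (hasDerivAt_UU hK x).continuousAt
  have i1 : IntegrableOn (fun x => F x * HT W x) (Ioo (0:ℝ) π) := by
    have hc : Continuous (fun x => F x * HT W x) := (Lip.continuous hKF).mul (continuous_HT hK)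
    exact (hc.integrableOn_Icc).mono_set Ioo_subset_Icc_self
  have i2 : IntegrableOn (fun x => P x * (UU W x - UU W l)) (Ioo (0:ℝ) π) := by
    have hc : Continuous (fun x => UU W x - UU W l) := hUc.sub continuous_const
    refine Integrable.bdd_mul (c := C0)
      ((hc.integrableOn_Icc).mono_set Ioo_subset_Icc_self) hPm.aestronglyMeasurable ?_
    exact ae_restrict_of_forall_mem measurableSet_Ioo fun x hx => hPb x (hsub hx)
  obtain ⟨q, hqd⟩ : ∃ q : ℝ → ℝ, q = fun x => 2 * (F x * HT W x) + P x * (UU W x - UU W l) :=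
    ⟨_, rfl⟩
  have iq : IntegrableOn q (Ioo (0:ℝ) π) := by
    rw [hqd]
    exact (i1.const_mul 2).add i2
  have iqI : IntervalIntegrable q volume 0 π :=
    (intervalIntegrable_iff_integrableOn_Ioo_of_le hpi.le).2 iq
  have hqx : ∀ x ∈ Ioo (0:ℝ) π, q x = |W x| * (2 * HT W x * Pc (x - l) +
      (UU W x - UU W l) * dPh (x - l)) := by
    intro x hx
    rw [hqd]
    show 2 * (F x * HT W x) + P x * (UU W x - UU W l) = _
    rw [hFx x (hsub hx), hPd]
    show 2 * (g x * Pc (x - l) * HT W x) + g x * dPh (x - l) * (UU W x - UU W l) = _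
    rw [g2 x hx]
    ring
  have hTF : TF W l = ∫ x in (0:ℝ)..π, q x := by
    have a1 : IntervalIntegrable q volume 0 l :=
      iqI.mono_set (by
        rw [uIcc_of_le hl0.le, uIcc_of_le hpi.le]
        exact Icc_subset_Icc_right hl1.le)
    have a2 : IntervalIntegrable q volume l π :=
      iqI.mono_set (by
        rw [uIcc_of_le hl1.le, uIcc_of_le hpi.le]
        exact Icc_subset_Icc_left hl0.le)
    rw [← intervalIntegral.integral_add_adjacent_intervals a1 a2]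
    unfold TF
    congr 1
    · rw [intervalIntegral.integral_of_le hl0.le, intervalIntegral.integral_of_le hl0.le,
        integral_Ioc_eq_integral_Ioo, integral_Ioc_eq_integral_Ioo]
      refine setIntegral_congr_fun measurableSet_Ioo fun x hx => ?_
      show -W x * (2 * HT W x * Pc (l - x) - (UU W x - UU W l) * dPh (l - x)) = q x
      rw [hqx x ⟨hx.1, hx.2.trans hl1⟩, abs_of_nonpos (h.neg x ⟨hx.1.le, hx.2.le⟩),
        ← neg_sub x l, Pc_even, dPh_odd]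
      ring
    · rw [intervalIntegral.integral_of_le hl1.le, intervalIntegral.integral_of_le hl1.le,
        integral_Ioc_eq_integral_Ioo, integral_Ioc_eq_integral_Ioo]
      refine setIntegral_congr_fun measurableSet_Ioo fun x hx => ?_
      show W x * (2 * HT W x * Pc (x - l) + (UU W x - UU W l) * dPh (x - l)) = q x
      rw [hqx x ⟨hl0.trans hx.1, hx.2⟩, abs_of_nonneg (h.pos x ⟨hx.1.le, hx.2.le⟩)]
  have hTF2 : TF W l = 2 * (∫ x in Ioo (0:ℝ) π, F x * HT W x) +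
      ∫ x in Ioo (0:ℝ) π, P x * (UU W x - UU W l) := by
    rw [hTF, intervalIntegral.integral_of_le hpi.le, integral_Ioc_eq_integral_Ioo, hqd,
      ← integral_const_mul]
    exact integral_add (i1.const_mul 2) i2
  -- the quadratic integrand
  obtain ⟨I, hId⟩ : ∃ I : ℝ × ℝ → ℝ, I = fun z => 1 / (2 * π) *
      ((F z.1 * W z.2 - F z.2 * W z.1) * ct (z.1 - z.2) -
      (F z.1 * W z.2 + F z.2 * W z.1) * ct (z.1 + z.2)) +
      1 / π * (P z.1 * W z.2 * (Lg z.1 z.2 - Lg l z.2)) := ⟨_, rfl⟩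
  have hI : IntegrableOn I Sq1 := by
    rw [hId]
    exact (f1.const_mul _).add (u1.const_mul _)
  have hTI : TF W l = ∫ z in Sq1, I z := by
    rw [hTF2, f2, u2, hId]
    have e := integral_add (f1.const_mul (1 / (2 * π))) (u1.const_mul (1 / π))
    rw [integral_const_mul, integral_const_mul] at e
    refine Eq.trans ?_ e.symm
    field_simp
    ring
  obtain ⟨k1, hk1⟩ : ∃ k1 : ℝ × ℝ → ℝ, k1 = fun z => 1 / (2 * π) *
      ((Pc (z.1 - l) - Pc (z.2 - l)) * ct (z.1 - z.2) -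
      (Pc (z.1 - l) + Pc (z.2 - l)) * ct (z.1 + z.2)) +
      1 / π * (dPh (z.1 - l) * (Lg z.1 z.2 - Lg l z.2)) := ⟨_, rfl⟩
  obtain ⟨k3, hk3⟩ : ∃ k3 : ℝ × ℝ → ℝ, k3 = fun z => 1 / (2 * π) *
      (-((Pc (z.1 - l) + Pc (z.2 - l)) * ct (z.1 - z.2)) +
      (Pc (z.1 - l) - Pc (z.2 - l)) * ct (z.1 + z.2)) -
      1 / π * (dPh (z.1 - l) * (Lg z.1 z.2 - Lg l z.2)) := ⟨_, rfl⟩
  obtain ⟨k4, hk4⟩ : ∃ k4 : ℝ × ℝ → ℝ, k4 = fun z => 1 / (2 * π) *
      ((Pc (z.1 - l) + Pc (z.2 - l)) * ct (z.1 - z.2) -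
      (Pc (z.1 - l) - Pc (z.2 - l)) * ct (z.1 + z.2)) +
      1 / π * (dPh (z.1 - l) * (Lg z.1 z.2 - Lg l z.2)) := ⟨_, rfl⟩
  obtain ⟨q1, q2, q3, q4⟩ := quad_split hE (k1 := k1) (k2 := fun z => -k1 z) (k3 := k3) (k4 := k4)
    hI (by
      intro z hz
      have w1 := bF_sub_bR W z.1
      have w2 := bF_sub_bR W z.2
      have v1 := bF_add_bR W z.1
      have v2 := bF_add_bR W z.2
      rw [hId, hk1, hk3, hk4]
      beta_reduce
      rw [hFx _ (hsub hz.1), hFx _ (hsub hz.2), hPd]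
      beta_reduce
      rw [g2 _ hz.1, g2 _ hz.2, v1, v2, w1, w2]
      ring)
  have r1 : ∀ z : ℝ × ℝ, 1 / 2 * (k1 z + k1 z.swap) = kT l z.1 z.2 := by
    intro z
    rw [hk1]
    show 1 / 2 * (1 / (2 * π) * ((Pc (z.1 - l) - Pc (z.2 - l)) * ct (z.1 - z.2) -
      (Pc (z.1 - l) + Pc (z.2 - l)) * ct (z.1 + z.2)) +
      1 / π * (dPh (z.1 - l) * (Lg z.1 z.2 - Lg l z.2)) +
      (1 / (2 * π) * ((Pc (z.2 - l) - Pc (z.1 - l)) * ct (z.2 - z.1) -
      (Pc (z.2 - l) + Pc (z.1 - l)) * ct (z.2 + z.1)) +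
      1 / π * (dPh (z.2 - l) * (Lg z.2 z.1 - Lg l z.1)))) = _
    unfold kT
    rw [ct_anti z.1 z.2, add_comm z.2 z.1, Lg_symm z.1 z.2]
    ring
  have r2 : ∀ z : ℝ × ℝ, bR W z.1 * bR W z.2 * (1 / 2 * (-k1 z + -k1 z.swap)) =
      -1 * (bR W z.1 * bR W z.2 * kT l z.1 z.2) := by
    intro z
    rw [← r1 z]
    ring
  have r3 : ∀ z : ℝ × ℝ, k3 z + k4 z.swap = kTx l z.1 z.2 := by
    intro z
    rw [hk3, hk4]
    show 1 / (2 * π) * (-((Pc (z.1 - l) + Pc (z.2 - l)) * ct (z.1 - z.2)) +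
      (Pc (z.1 - l) - Pc (z.2 - l)) * ct (z.1 + z.2)) -
      1 / π * (dPh (z.1 - l) * (Lg z.1 z.2 - Lg l z.2)) +
      (1 / (2 * π) * ((Pc (z.2 - l) + Pc (z.1 - l)) * ct (z.2 - z.1) -
      (Pc (z.2 - l) - Pc (z.1 - l)) * ct (z.2 + z.1)) +
      1 / π * (dPh (z.2 - l) * (Lg z.2 z.1 - Lg l z.1))) = _
    unfold kTx
    rw [ct_anti z.1 z.2, add_comm z.2 z.1, Lg_symm z.1 z.2]
    ring
  simp only [r1, r2, r3] at q1 q2 q3 q4
  refine ⟨q1, int_of_mul (by norm_num) q2, q3, ?_⟩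
  rw [hTI, q4, integral_const_mul]
  ring

end Pool.Agent.H12.DE
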