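import Pool.Agent.H12.DE.RawR
import Pool.Agent.H12.DE.TFk
import Pool.Agent.H53.DE.Ker
import Pool.Agent.H51.DG.NG

/-!
# Project DE: the raw side of the static inequality

`raw_sum1` (`0 < l ≤ π/4`), `raw_sum2` (`π/4 ≤ l ≤ π/2`): lower bounds of `8π (TF W l - 9/8 EFEk W)` by the
forms of the two arcs seen from `l`.
-/

set_option autoImplicit false
open Real Set MeasureTheory Filter Topology

namespace Pool.Agent.H12.DE
open Pool.Agent.H45.FL Pool.Agent.H51.DG Pool.Agent.H45.DY Pool.Agent.H90.DC Pool.Agent.H90.DE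
open Pool.Agent.H44.DE Pool.Agent.H53.DE

theorem add_int {f g : ℝ × ℝ → ℝ} (hf : IntegrableOn f Sq1) (hg : IntegrableOn g Sq1) :
    IntegrableOn (fun z => f z + g z) Sq1 ∧
      ∫ z in Sq1, (f z + g z) = (∫ z in Sq1, f z) + ∫ z in Sq1, g z :=
  ⟨hf.add hg, integral_add hf hg⟩

theorem sub_int {f g : ℝ × ℝ → ℝ} (hf : IntegrableOn f Sq1) (hg : IntegrableOn g Sq1) :
    IntegrableOn (fun z => f z - g z) Sq1 ∧
      ∫ z in Sq1, (f z - g z) = (∫ z in Sq1, f z) - ∫ z in Sq1, g z :=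
  ⟨hf.sub hg, integral_sub hf hg⟩

theorem neg_mono {f g : ℝ × ℝ → ℝ} (hf : IntegrableOn f Sq1) (hg : IntegrableOn g Sq1)
    (h : ∀ᵐ z ∂(volume.restrict Sq1), -f z ≤ g z) : -(∫ z in Sq1, f z) ≤ ∫ z in Sq1, g z := by
  rw [← integral_neg]
  exact integral_mono_ae hf.neg hg h

/-- the exact decomposition -/
theorem raw_dec {W : ℝ → ℝ} {l : ℝ} (h : VanE W l) :
    IntegrableOn (fun z : ℝ × ℝ => aE W l z.1 * aE W l z.2 *
      (8 * π * kT l (l + z.1) (l + z.2) - 9 / 2 * ct (l + z.1 + (l + z.2)) ^ 3)) Sq1 ∧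
    IntegrableOn (fun z : ℝ × ℝ => bE W l z.1 * bE W l z.2 *
      (-(8 * π * kT l (l - z.1) (l - z.2)) + 9 / 2 * ct (l - z.1 + (l - z.2)) ^ 3)) Sq1 ∧
    IntegrableOn (fun z : ℝ × ℝ => aE W l z.1 * bE W l z.2 *
      (8 * π * kTx l (l + z.1) (l - z.2) - 9 * ct (l + z.1 - (l - z.2)) ^ 3)) Sq1 ∧
    8 * π * (TF W l - 9 / 8 * EFEk W) =
      (∫ z in Sq1, aE W l z.1 * aE W l z.2 *
        (8 * π * kT l (l + z.1) (l + z.2) - 9 / 2 * ct (l + z.1 + (l + z.2)) ^ 3)) +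
      (∫ z in Sq1, bE W l z.1 * bE W l z.2 *
        (-(8 * π * kT l (l - z.1) (l - z.2)) + 9 / 2 * ct (l - z.1 + (l - z.2)) ^ 3)) +
      ∫ z in Sq1, aE W l z.1 * bE W l z.2 *
        (8 * π * kTx l (l + z.1) (l - z.2) - 9 * ct (l + z.1 - (l - z.2)) ^ 3) := by
  have hpi := Real.pi_pos
  have hE := h.toOddE
  obtain ⟨K, hK⟩ := h.lip
  obtain ⟨t1, t2, t3, t4⟩ := TF_kernel h
  obtain ⟨e1, e2, e3⟩ := EFEk_int hE hK
  obtain ⟨a1, b1⟩ := sub_int (t1.const_mul (8 * π)) (e1.const_mul (9 / 2))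
  obtain ⟨a2, b2⟩ := sub_int (e2.const_mul (9 / 2)) (t2.const_mul (8 * π))
  obtain ⟨a3, b3⟩ := sub_int (t3.const_mul (8 * π)) (e3.const_mul 9)
  have r1 : ∀ z : ℝ × ℝ, 8 * π * (bF W z.1 * bF W z.2 * kT l z.1 z.2) -
      9 / 2 * (bF W z.1 * bF W z.2 * ct (z.1 + z.2) ^ 3) = bF W z.1 * bF W z.2 *
      (8 * π * kT l z.1 z.2 - 9 / 2 * ct (z.1 + z.2) ^ 3) := fun z => by ring
  have r2 : ∀ z : ℝ × ℝ, 9 / 2 * (bR W z.1 * bR W z.2 * ct (z.1 + z.2) ^ 3) -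
      8 * π * (bR W z.1 * bR W z.2 * kT l z.1 z.2) = bR W z.1 * bR W z.2 *
      (-(8 * π * kT l z.1 z.2) + 9 / 2 * ct (z.1 + z.2) ^ 3) := fun z => by ring
  have r3 : ∀ z : ℝ × ℝ, 8 * π * (bF W z.1 * bR W z.2 * kTx l z.1 z.2) -
      9 * (bF W z.1 * bR W z.2 * ct (z.1 - z.2) ^ 3) = bF W z.1 * bR W z.2 *
      (8 * π * kTx l z.1 z.2 - 9 * ct (z.1 - z.2) ^ 3) := fun z => by ring
  simp only [r1, r2, r3] at a1 b1 a2 b2 a3 b3
  obtain ⟨c1, d1⟩ := rebPP hE (K := fun z => 8 * π * kT l z.1 z.2 - 9 / 2 * ct (z.1 + z.2) ^ 3) a1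
  obtain ⟨c2, d2⟩ := rebNN hE (K := fun z => -(8 * π * kT l z.1 z.2) + 9 / 2 * ct (z.1 + z.2) ^ 3)
    a2
  obtain ⟨c3, d3⟩ := rebPN hE (K := fun z => 8 * π * kTx l z.1 z.2 - 9 * ct (z.1 - z.2) ^ 3) a3
  refine ⟨c1, c2, c3, ?_⟩
  have d1' : ∫ z in Sq1, aE W l z.1 * aE W l z.2 *
        (8 * π * kT l (l + z.1) (l + z.2) - 9 / 2 * ct (l + z.1 + (l + z.2)) ^ 3) = _ := d1
  have d2' : ∫ z in Sq1, bE W l z.1 * bE W l z.2 *
        (-(8 * π * kT l (l - z.1) (l - z.2)) + 9 / 2 * ct (l - z.1 + (l - z.2)) ^ 3) = _ := d2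
  have d3' : ∫ z in Sq1, aE W l z.1 * bE W l z.2 *
        (8 * π * kTx l (l + z.1) (l - z.2) - 9 * ct (l + z.1 - (l - z.2)) ^ 3) = _ := d3
  rw [d1', d2', d3', b1, b2, b3, integral_const_mul, integral_const_mul, integral_const_mul,
    integral_const_mul, integral_const_mul, integral_const_mul, t4]
  unfold EFEk
  field_simp
  ring

theorem aE_nonneg (W : ℝ → ℝ) (l ξ : ℝ) : 0 ≤ aE W l ξ := by
  unfold aE
  split_ifs
  · exact le_max_right _ _
  · exact le_rfl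

theorem bE_nonneg (W : ℝ → ℝ) (l ξ : ℝ) : 0 ≤ bE W l ξ := by
  unfold bE
  split_ifs
  · exact le_max_right _ _
  · exact le_rfl

theorem kpp_meas (P : ℝ) : Measurable (fun z : ℝ × ℝ => kpp P (tn z.1) (tn z.2)) := by
  have := tn_meas
  unfold kpp
  fun_prop

theorem L0_meas {f g : ℝ × ℝ → ℝ} (hf : Measurable f) (hg : Measurable g) :
    Measurable (fun z : ℝ × ℝ => L0 (f z) (g z)) := by
  unfold L0
  fun_prop

theorem kpn_meas (R : ℝ) : Measurable (fun z : ℝ × ℝ => kpn R (tn z.1) (tn z.2)) := by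
  have ht := tn_meas
  have m1 : Measurable (fun z : ℝ × ℝ => tn z.1) := ht.comp measurable_fst
  have m2 : Measurable (fun z : ℝ × ℝ => tn z.2) := ht.comp measurable_snd
  unfold kpn
  refine Measurable.sub ?_ (by fun_prop)
  refine Measurable.ite ?_ ?_ measurable_const
  · exact (measurableSet_lt m1 measurable_const).inter (measurableSet_lt m2 measurable_const)
  · unfold LS
    exact ((L0_meas m1 m2).add (L0_meas m2 m1)).const_mul _

theorem TI_kpp {a : ℝ → ℝ} (ha : Bd a) {P : ℝ} (hP : 0 < P) : TI a a (kpp P) := by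
  refine TI_bdd ha ha (kpp_meas P) fun t ht => ⟨1 / t ^ 3 + 4 / t ^ 3, fun X Z hX hZ => ?_⟩
  have hX0 : 0 < X := by linarith
  have hZ0 : 0 < Z := by linarith
  have hS : t ≤ X + Z + P := by linarith
  have hS0 : 0 < X + Z + P := by linarith
  unfold kpp
  have a1 : 0 ≤ 1 / 2 * (1 / X + 1 / Z) / (X + Z + P) ^ 2 := by positivity
  have a2 : 0 ≤ 23 / 6 / (X + Z + P) ^ 3 := by positivity
  have a3 : 1 / 2 * (1 / X + 1 / Z) / (X + Z + P) ^ 2 ≤ 1 / t ^ 3 := by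
    have e : 1 / t ^ 3 = 1 / 2 * (1 / t + 1 / t) / t ^ 2 := by
      field_simp
      norm_num
    rw [e]
    gcongr
  have a4 : 23 / 6 / (X + Z + P) ^ 3 ≤ 4 / t ^ 3 := by
    gcongr
    norm_num
  rw [abs_le]
  constructor <;> linarith

theorem TI_kpn {a b : ℝ → ℝ} (ha : Bd a) (hb : Bd b) (R : ℝ) : TI a b (kpn R) := by
  refine TI_bdd ha hb (kpn_meas R) fun t ht => ⟨2 * (2 / t ^ 3) + 9 / t ^ 3, fun X Z hX hZ => ?_⟩
  have hX0 : 0 < X := by linarith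
  have hZ0 : 0 < Z := by linarith
  have hS0 : 0 < X + Z := by linarith
  have g : ∀ {x z : ℝ}, t ≤ x → t ≤ z → 0 ≤ L0 x z ∧ L0 x z ≤ 1 / t ^ 3 := by
    intro x z hx hz
    have hx0 : 0 < x := by linarith
    have hz0 : 0 < z := by linarith
    refine ⟨L0_nonneg hx0 hz0, ?_⟩
    rw [L0_phi hz0.ne']
    have h1 := phi0_half (r := x / z) (by positivity)
    have h2 : phi0 (x / z) / x ^ 3 ≤ (x / z) ^ 2 / 2 / x ^ 3 := by gcongr
    have h3 : (x / z) ^ 2 / 2 / x ^ 3 = 1 / (2 * (x * z ^ 2)) := by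
      field_simp
    have h4 : 1 / (2 * (x * z ^ 2)) ≤ 1 / t ^ 3 := by
      refine one_div_le_one_div_of_le (by positivity) ?_
      have : t * t ^ 2 ≤ x * z ^ 2 := by gcongr
      nlinarith [mul_pos hx0 (pow_pos hz0 2)]
    linarith
  have h9 : 9 / (X + Z) ^ 3 ≤ 9 / t ^ 3 := by
    gcongr
    linarith
  have h9' : 0 ≤ 9 / (X + Z) ^ 3 := by positivity
  obtain ⟨g1, g2⟩ := g hX hZ
  obtain ⟨g3, g4⟩ := g hZ hX
  have h0 : 0 ≤ 1 / t ^ 3 := by positivity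
  have e1 : 2 / t ^ 3 = 2 * (1 / t ^ 3) := by ring
  unfold kpn
  split_ifs
  · unfold LS
    rw [abs_le, e1]
    constructor <;> linarith
  · rw [abs_le, e1]
    constructor <;> linarith

/-- the error term -/
theorem J1_tf {a : ℝ → ℝ} (ha : Bd a) :
    TI a a (fun X Z => 1 / 4 * (1 / X + 1 / Z)) ∧
    tf a a (fun X Z => 1 / 4 * (1 / X + 1 / Z)) = 1 / 2 * (ms a * J1 a) := by
  have hpi := Real.pi_pos
  have ht := tn_meas
  have hT : TI a a (fun X Z => 1 / 4 * (1 / X + 1 / Z)) := by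
    refine TI_bdd ha ha (by fun_prop) fun t ht => ⟨1 / t, fun X Z hX hZ => ?_⟩
    have hX0 : 0 < X := by linarith
    have hZ0 : 0 < Z := by linarith
    have a1 : 0 ≤ 1 / 4 * (1 / X + 1 / Z) := by positivity
    have a2 : 1 / X ≤ 1 / t := one_div_le_one_div_of_le ht hX
    have a3 : 1 / Z ≤ 1 / t := one_div_le_one_div_of_le ht hZ
    have a4 : 0 < 1 / t := by positivity
    show |1 / 4 * (1 / X + 1 / Z)| ≤ 1 / t
    rw [abs_of_nonneg a1]
    linarith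
  refine ⟨hT, ?_⟩
  have hT1 : TI a a (fun X _ => 1 / X) := by
    refine TI_bdd ha ha (by fun_prop) fun t ht => ⟨1 / t, fun X Z hX hZ => ?_⟩
    have hX0 : 0 < X := by linarith
    show |1 / X| ≤ 1 / t
    rw [abs_of_pos (by positivity)]
    exact one_div_le_one_div_of_le ht hX
  have hT2 : TI a a (fun _ Z => 1 / Z) := by
    refine TI_bdd ha ha (by fun_prop) fun t ht => ⟨1 / t, fun X Z hX hZ => ?_⟩
    have hX0 : 0 < Z := by linarith
    show |1 / Z| ≤ 1 / t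
    rw [abs_of_pos (by positivity)]
    exact one_div_le_one_div_of_le ht hZ
  have i1 : tf a a (fun X _ => 1 / X) = ms a * J1 a := by
    have e := integral_prod_mul (μ := volume.restrict (Ioo (0:ℝ) π))
      (ν := volume.restrict (Ioo (0:ℝ) π)) (fun x => a x / tn x) a
    unfold tf ms J1
    rw [JKer_Sq1, intervalIntegral.integral_of_le hpi.le, intervalIntegral.integral_of_le hpi.le,
      integral_Ioc_eq_integral_Ioo, integral_Ioc_eq_integral_Ioo, mul_comm, ← e]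
    congr 1
    funext z
    ring
  have i2 : tf a a (fun _ Z => 1 / Z) = ms a * J1 a := by
    have e := integral_prod_mul (μ := volume.restrict (Ioo (0:ℝ) π))
      (ν := volume.restrict (Ioo (0:ℝ) π)) a (fun x => a x / tn x)
    unfold tf ms J1
    rw [JKer_Sq1, intervalIntegral.integral_of_le hpi.le, intervalIntegral.integral_of_le hpi.le,
      integral_Ioc_eq_integral_Ioo, integral_Ioc_eq_integral_Ioo, ← e]
    congr 1
    funext z
    ring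
  obtain ⟨j1, j2⟩ := add_int hT1 hT2
  have e0 : tf a a (fun X Z => 1 / 4 * (1 / X + 1 / Z)) = 1 / 4 *
      (tf a a (fun X _ => 1 / X) + tf a a (fun _ Z => 1 / Z)) := by
    unfold tf
    rw [← j2, ← integral_const_mul]
    congr 1
    funext z
    ring
  rw [e0, i1, i2]
  ring

/-- the integral of the masses -/
theorem ms_sq {a : ℝ → ℝ} (ha : Bd a) :
    IntegrableOn (fun z : ℝ × ℝ => a z.1 * a z.2) Sq1 ∧
    ∫ z in Sq1, a z.1 * a z.2 = ms a ^ 2 := by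
  have hpi := Real.pi_pos
  have hT1 : TI a a (fun _ _ => 1) := by
    refine TI_bdd ha ha (by fun_prop) fun t ht => ⟨1, fun X Z hX hZ => ?_⟩
    show |(1:ℝ)| ≤ 1
    rw [abs_one]
  have e := integral_prod_mul (μ := volume.restrict (Ioo (0:ℝ) π))
      (ν := volume.restrict (Ioo (0:ℝ) π)) a a
  constructor
  · refine Integrable.congr (f := fun z : ℝ × ℝ => a z.1 * a z.2 * 1) hT1 ?_
    exact Eventually.of_forall fun z => mul_one _
  · unfold ms
    rw [JKer_Sq1, intervalIntegral.integral_of_le hpi.le, integral_Ioc_eq_integral_Ioo, sq, ← e]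

section final
variable {W : ℝ → ℝ} {l : ℝ}

/-- the P-P part, small `l` -/
theorem part_PP1 (h : VanE W l) (hl : l ≤ π / 4) :
    N3 (aE W l) + tf (aE W l) (aE W l) (kpp (Real.tan l)) - 1 / 2 * (ms (aE W l) * J1 (aE W l)) ≤
      ∫ z in Sq1, aE W l z.1 * aE W l z.2 *
        (8 * π * kT l (l + z.1) (l + z.2) - 9 / 2 * ct (l + z.1 + (l + z.2)) ^ 3) := by
  have hpi := Real.pi_pos
  have hl0 := h.l0
  have ha := aE_bd h
  have hP : 0 < Real.tan l := Real.tan_pos_of_pos_of_lt_pi_div_two hl0 (by linarith)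
  obtain ⟨i1, -, -, -⟩ := raw_dec h
  obtain ⟨f1, v1⟩ := form_k3 ha
  obtain ⟨f2, v2⟩ := form_l1k ha
  have f3 := TI_kpp ha hP
  obtain ⟨f4, v4⟩ := J1_tf ha
  set a := aE W l with had
  have f1' : IntegrableOn (fun z : ℝ × ℝ => a z.1 * a z.2 * k3 (ct z.1) (ct z.2)) Sq1 := f1
  have f2' : IntegrableOn (fun z : ℝ × ℝ => a z.1 * a z.2 * l1k (ct z.1) (ct z.2)) Sq1 := f2
  have v1' : ∫ z in Sq1, a z.1 * a z.2 * k3 (ct z.1) (ct z.2) = -N3 a := v1
  have v2' : ∫ z in Sq1, a z.1 * a z.2 * l1k (ct z.1) (ct z.2) ≤ 0 := v2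
  obtain ⟨g1, w1⟩ := add_int f1' f2'
  obtain ⟨g2, w2⟩ := sub_int f3 f4
  obtain ⟨g3, w3⟩ := sub_int g2 g1
  have hmono := integral_mono_ae g3 i1 (by
    filter_upwards [ae_off l] with z hz
    obtain ⟨⟨hx, hy⟩, h1, -, -⟩ := hz
    show a z.1 * a z.2 * kpp (Real.tan l) (tn z.1) (tn z.2) -
      a z.1 * a z.2 * (1 / 4 * (1 / tn z.1 + 1 / tn z.2)) -
      (a z.1 * a z.2 * k3 (ct z.1) (ct z.2) + a z.1 * a z.2 * l1k (ct z.1) (ct z.2)) ≤
      a z.1 * a z.2 * (8 * π * kT l (l + z.1) (l + z.2) - 9 / 2 * ct (l + z.1 + (l + z.2)) ^ 3)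
    rcases lt_or_ge z.1 (π - l) with h2 | h2
    · rcases lt_or_ge z.2 (π - l) with h3 | h3
      · have h4 := ptPP1 hl0 hl ⟨hx.1, h2⟩ ⟨hy.1, h3⟩ h1
        have h5 := mul_le_mul_of_nonneg_left h4 (mul_nonneg (aE_nonneg W l z.1) (aE_nonneg W l z.2))
        rw [← had] at h5
        linarith
      · have : a z.2 = 0 := aE_out h.toOddE h3
        rw [this]
        simp
    · have : a z.1 = 0 := aE_out h.toOddE h2
      rw [this]
      simp)
  rw [w3, w2, w1] at hmono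
  have e1 : ∫ z in Sq1, a z.1 * a z.2 * kpp (Real.tan l) (tn z.1) (tn z.2) =
    tf a a (kpp (Real.tan l)) := rfl
  have e2 : ∫ z in Sq1, a z.1 * a z.2 * (1 / 4 * (1 / tn z.1 + 1 / tn z.2)) =
    tf a a (fun X Z => 1 / 4 * (1 / X + 1 / Z)) := rfl
  have hmono' : tf a a (kpp (Real.tan l)) - tf a a (fun X Z => 1 / 4 * (1 / X + 1 / Z)) -
      ((∫ z in Sq1, a z.1 * a z.2 * k3 (ct z.1) (ct z.2)) +
      ∫ z in Sq1, a z.1 * a z.2 * l1k (ct z.1) (ct z.2)) ≤ _ := hmono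
  rw [v1', v4] at hmono'
  linarith

/-- the P-P part, large `l` -/
theorem part_PP2 (h : VanE W l) (hl : π / 4 ≤ l) :
    N3 (aE W l) - 9 / 2 * ms (aE W l) ^ 2 ≤
      ∫ z in Sq1, aE W l z.1 * aE W l z.2 *
        (8 * π * kT l (l + z.1) (l + z.2) - 9 / 2 * ct (l + z.1 + (l + z.2)) ^ 3) := by
  have hpi := Real.pi_pos
  have hl0 := h.l0
  have ha := aE_bd h
  obtain ⟨i1, -, -, -⟩ := raw_dec h
  obtain ⟨f1, v1⟩ := form_k3 ha
  obtain ⟨f2, v2⟩ := form_l1k ha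
  obtain ⟨f3, v3⟩ := ms_sq ha
  set a := aE W l with had
  have f1' : IntegrableOn (fun z : ℝ × ℝ => a z.1 * a z.2 * k3 (ct z.1) (ct z.2)) Sq1 := f1
  have f2' : IntegrableOn (fun z : ℝ × ℝ => a z.1 * a z.2 * l1k (ct z.1) (ct z.2)) Sq1 := f2
  have v1' : ∫ z in Sq1, a z.1 * a z.2 * k3 (ct z.1) (ct z.2) = -N3 a := v1
  have v2' : ∫ z in Sq1, a z.1 * a z.2 * l1k (ct z.1) (ct z.2) ≤ 0 := v2
  obtain ⟨g1, w1⟩ := add_int f1' f2'
  obtain ⟨g2, w2⟩ := add_int g1 (f3.const_mul (9 / 2))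
  have hmono' := neg_mono g2 i1 (by
    filter_upwards [ae_off l] with z hz
    obtain ⟨⟨hx, hy⟩, h1, -, -⟩ := hz
    show -(a z.1 * a z.2 * k3 (ct z.1) (ct z.2) + a z.1 * a z.2 * l1k (ct z.1) (ct z.2) +
      9 / 2 * (a z.1 * a z.2)) ≤
      a z.1 * a z.2 * (8 * π * kT l (l + z.1) (l + z.2) - 9 / 2 * ct (l + z.1 + (l + z.2)) ^ 3)
    rcases lt_or_ge z.1 (π - l) with h2 | h2
    · rcases lt_or_ge z.2 (π - l) with h3 | h3
      · have h4 := ptPP2 hl ⟨hx.1, h2⟩ ⟨hy.1, h3⟩ h1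
        have h5 := mul_le_mul_of_nonneg_left h4 (mul_nonneg (aE_nonneg W l z.1) (aE_nonneg W l z.2))
        rw [← had] at h5
        linarith
      · have : a z.2 = 0 := aE_out h.toOddE h3
        rw [this]
        simp
    · have : a z.1 = 0 := aE_out h.toOddE h2
      rw [this]
      simp)
  rw [w2, w1, integral_const_mul, v1', v3] at hmono'
  linarith

/-- the N-N part -/
theorem part_NN (h : VanE W l) (hl : l ≤ π / 2) :
    N3 (bE W l) ≤ ∫ z in Sq1, bE W l z.1 * bE W l z.2 *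
      (-(8 * π * kT l (l - z.1) (l - z.2)) + 9 / 2 * ct (l - z.1 + (l - z.2)) ^ 3) := by
  have hpi := Real.pi_pos
  have hb := bE_bd h
  obtain ⟨-, i1, -, -⟩ := raw_dec h
  obtain ⟨f1, v1⟩ := form_k3 hb
  obtain ⟨f2, v2⟩ := form_l1k hb
  set b := bE W l with hbd
  have f1' : IntegrableOn (fun z : ℝ × ℝ => b z.1 * b z.2 * k3 (ct z.1) (ct z.2)) Sq1 := f1
  have f2' : IntegrableOn (fun z : ℝ × ℝ => b z.1 * b z.2 * l1k (ct z.1) (ct z.2)) Sq1 := f2
  have v1' : ∫ z in Sq1, b z.1 * b z.2 * k3 (ct z.1) (ct z.2) = -N3 b := v1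
  have v2' : ∫ z in Sq1, b z.1 * b z.2 * l1k (ct z.1) (ct z.2) ≤ 0 := v2
  obtain ⟨g1, w1⟩ := add_int f1' f2'
  have hmono' := neg_mono g1 i1 (by
    filter_upwards [ae_off l] with z hz
    obtain ⟨⟨hx, hy⟩, h1, -, -⟩ := hz
    show -(b z.1 * b z.2 * k3 (ct z.1) (ct z.2) + b z.1 * b z.2 * l1k (ct z.1) (ct z.2)) ≤
      b z.1 * b z.2 * (-(8 * π * kT l (l - z.1) (l - z.2)) + 9 / 2 * ct (l - z.1 + (l - z.2)) ^ 3)
    rcases lt_or_ge z.1 l with h2 | h2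
    · rcases lt_or_ge z.2 l with h3 | h3
      · have h4 := ptNN hl ⟨hx.1, h2⟩ ⟨hy.1, h3⟩ h1
        have h5 := mul_le_mul_of_nonneg_left h4 (mul_nonneg (bE_nonneg W l z.1) (bE_nonneg W l z.2))
        rw [← hbd] at h5
        linarith
      · have : b z.2 = 0 := bE_out h.toOddE h3
        rw [this]
        simp
    · have : b z.1 = 0 := bE_out h.toOddE h2
      rw [this]
      simp)
  rw [w1, v1'] at hmono'
  linarith

/-- the P-N part -/
theorem part_PN (h : VanE W l) (hl : l ≤ π / 2) {μ : ℝ} (hμ : 0 < μ) (hμ1 : μ ≤ 1)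
    (hμl : μ * Real.cos l ≤ Real.sin l) :
    tf (aE W l) (bE W l) (kpn (μ / 16)) ≤ ∫ z in Sq1, aE W l z.1 * bE W l z.2 *
      (8 * π * kTx l (l + z.1) (l - z.2) - 9 * ct (l + z.1 - (l - z.2)) ^ 3) := by
  have hpi := Real.pi_pos
  obtain ⟨-, -, i1, -⟩ := raw_dec h
  have g := TI_kpn (aE_bd h) (bE_bd h) (μ / 16)
  unfold tf
  refine integral_mono_ae g i1 ?_
  filter_upwards [ae_off l] with z hz
  obtain ⟨⟨hx, hy⟩, h1, -, -⟩ := hz
  show aE W l z.1 * bE W l z.2 * kpn (μ / 16) (tn z.1) (tn z.2) ≤ aE W l z.1 * bE W l z.2 *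
      (8 * π * kTx l (l + z.1) (l - z.2) - 9 * ct (l + z.1 - (l - z.2)) ^ 3)
  rcases lt_or_ge z.1 (π - l) with h2 | h2
  · rcases lt_or_ge z.2 l with h3 | h3
    · exact mul_le_mul_of_nonneg_left (ptPN h.l0 hl ⟨hx.1, h2⟩ ⟨hy.1, h3⟩ hμ hμ1 hμl)
        (mul_nonneg (aE_nonneg W l z.1) (bE_nonneg W l z.2))
    · rw [bE_out h.toOddE h3]
      simp
  · rw [aE_out h.toOddE h2]
    simp

/-- the raw side, `l ≤ π/4` -/
theorem raw_sum1 (h : VanE W l) (hl : l ≤ π / 4) :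
    N3 (aE W l) + N3 (bE W l) + tf (aE W l) (aE W l) (kpp (Real.tan l)) +
      tf (aE W l) (bE W l) (kpn (Real.tan l / 16)) - 1 / 2 * (ms (aE W l) * J1 (aE W l)) ≤
      8 * π * (TF W l - 9 / 8 * EFEk W) := by
  have hpi := Real.pi_pos
  have hl0 := h.l0
  have hc : 0 < Real.cos l := Real.cos_pos_of_mem_Ioo ⟨by linarith, by linarith⟩
  have hP : 0 < Real.tan l := Real.tan_pos_of_pos_of_lt_pi_div_two hl0 (by linarith)
  have hP1 : Real.tan l ≤ 1 := by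
    rw [← Real.tan_pi_div_four]
    rcases hl.eq_or_lt with h1 | h1
    · rw [h1]
    · exact (Real.tan_lt_tan_of_nonneg_of_lt_pi_div_two hl0.le (by linarith) h1).le
  have h1 := part_PP1 h hl
  have h2 := part_NN h (by linarith)
  have h3 := part_PN h (by linarith) hP hP1 (by
    rw [Real.tan_eq_sin_div_cos, div_mul_cancel₀ _ hc.ne'])
  obtain ⟨-, -, -, h4⟩ := raw_dec h
  rw [h4]
  linarith

/-- the raw side, `π/4 ≤ l ≤ π/2` -/
theorem raw_sum2 (h : VanE W l) (hl : π / 4 ≤ l) (hl1 : l ≤ π / 2) :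
    N3 (aE W l) + N3 (bE W l) + tf (aE W l) (bE W l) (kpn (1 / 16)) -
      9 / 2 * ms (aE W l) ^ 2 ≤ 8 * π * (TF W l - 9 / 8 * EFEk W) := by
  have hpi := Real.pi_pos
  have h1 := part_PP2 h hl
  have h2 := part_NN h hl1
  have h3 := part_PN h hl1 one_pos le_rfl (by
    rw [one_mul, ← Real.sin_pi_div_two_sub]
    exact Real.sin_le_sin_of_le_of_le_pi_div_two (by linarith) (by linarith) (by linarith))
  obtain ⟨-, -, -, h4⟩ := raw_dec h
  rw [h4]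
  linarith

end final

end Pool.Agent.H12.DE
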