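import Pool.Agent.H90.DC.JKer
import Pool.Agent.H90.DE.Defs

/-!
# Project DE: kernel forms on `(0,π)²` of `TF` and of the derivatives of the masses

`OddE W l`: `W ≤ 0` on `[0,l]`, `W ≥ 0` on `[l,π]`; `a = bF W = max W 0` (zero on `(0,l)`),
`b = bR W = max (-W) 0` (zero on `(l,π)`), `W = a - b` on `(0,π)`.
* `TF_kernel` (file `TFk.lean`): `W` Lipschitz, `W = 0` near `l`:
  `TF W l = ∫∫ a a' kT - ∫∫ b b' kT + ∫∫ a(x) b(y) kTx`;
* `MN_kernel`: `∫_0^l W HT W = -∫∫ b b' kM + ∫∫ a(x) b(y) kMn`,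
* `MP_kernel`: `∫_l^π W HT W = -∫∫ a a' kM + ∫∫ a(x) b(y) kMp`, `kM = ct(x+y)/2π` (Lipschitz `W`).
In all formulas the integrals are over `Sq1 = (0,π)²` and all parts are integrable.
-/

set_option autoImplicit false
open Real Set MeasureTheory Filter Topology

namespace Pool.Agent.H12.DE
open Pool.Agent.H45.FL Pool.Agent.H51.DG Pool.Agent.H45.DY Pool.Agent.H90.DC Pool.Agent.H90.DE

/-- Lipschitz data of class (E) vanishing near `l` -/
structure VanE (W : ℝ → ℝ) (l : ℝ) : Prop extends OddE W l where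
  lip : ∃ K, Lip K W
  van : ∃ δ : ℝ, 0 < δ ∧ ∀ x, |x - l| ≤ δ → W x = 0

/-- like-sign kernel of `TF` -/
noncomputable def kT (l x y : ℝ) : ℝ :=
  1 / (2 * π) * ((Pc (x - l) - Pc (y - l)) * ct (x - y) - (Pc (x - l) + Pc (y - l)) * ct (x + y)
    + dPh (x - l) * (Lg x y - Lg l y) + dPh (y - l) * (Lg x y - Lg l x))

/-- kernel of the action of `a(x)` and `b(y)` on each other in `TF` -/
noncomputable def kTx (l x y : ℝ) : ℝ :=
  1 / π * (-((Pc (x - l) + Pc (y - l)) * ct (x - y)) + (Pc (x - l) - Pc (y - l)) * ct (x + y)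
    - dPh (x - l) * (Lg x y - Lg l y) + dPh (y - l) * (Lg x y - Lg l x))

noncomputable def kM (x y : ℝ) : ℝ := 1 / (2 * π) * ct (x + y)
noncomputable def kMp (x y : ℝ) : ℝ := 1 / (2 * π) * (ct (x + y) - ct (x - y))
noncomputable def kMn (x y : ℝ) : ℝ := 1 / (2 * π) * (ct (x + y) + ct (x - y))

theorem Lg_symm (x y : ℝ) : Lg y x = Lg x y := by
  unfold Lg
  rw [show (y - x) / 2 = -((x - y) / 2) by ring, Real.sin_neg, Real.log_neg_eq_log, add_comm y x]

theorem ct_anti (x y : ℝ) : ct (y - x) = -ct (x - y) := by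
  rw [← SC_ct_neg]
  congr 1
  ring

theorem Pc_even (s : ℝ) : Pc (-s) = Pc s := by
  unfold Pc
  rw [SC_ct_neg]
  ring

theorem dPh_odd (s : ℝ) : dPh (-s) = -dPh s := by
  unfold dPh
  rw [SC_ct_neg]
  ring

theorem SD_BL_shift {f : ℝ → ℝ} (hf : SD_BL f) (l : ℝ) : SD_BL (fun x => f (x - l)) := by
  obtain ⟨⟨K, hK⟩, ⟨B, hB⟩, pf⟩ := hf
  refine ⟨⟨K, fun x y => ?_⟩, ⟨B, fun x => hB _⟩, fun x => ?_⟩
  · have := hK (x - l) (y - l)
    rwa [show x - l - (y - l) = x - y by ring] at this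
  · show f (x + 2 * π - l) = f (x - l)
    rw [show x + 2 * π - l = (x - l) + 2 * π by ring]
    exact pf _

theorem SD_BL_abs {f : ℝ → ℝ} (hf : SD_BL f) : SD_BL (fun x => |f x|) := by
  obtain ⟨⟨K, hK⟩, ⟨B, hB⟩, pf⟩ := hf
  refine ⟨⟨K, fun x y => ?_⟩, ⟨B, fun x => ?_⟩, fun x => ?_⟩
  · exact (abs_abs_sub_abs_le _ _).trans (hK x y)
  · show |(|f x|)| ≤ B
    rw [abs_abs]
    exact hB x
  · show |f (x + 2 * π)| = |f x|
    rw [pf]

/-- the set integral over one period of a function vanishing on the second half -/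
theorem half_integral {f : ℝ → ℝ} (h : ∀ x ∈ Ioo (0:ℝ) π, f (2 * π - x) = 0) :
    ∫ x in Ioo (0:ℝ) (2 * π), f x = ∫ x in Ioo (0:ℝ) π, f x := by
  have hpi := Real.pi_pos
  have h1 : Ioo (0:ℝ) π ⊆ Ioo (0:ℝ) (2 * π) := Ioo_subset_Ioo_right (by linarith)
  have hne : ∀ᵐ x : ℝ, x ≠ π := compl_mem_ae_iff.2 (measure_singleton π)
  rw [← integral_indicator measurableSet_Ioo, ← integral_indicator measurableSet_Ioo]
  refine integral_congr_ae ?_
  filter_upwards [hne] with x hx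
  by_cases hx1 : x ∈ Ioo (0:ℝ) π
  · rw [indicator_of_mem (h1 hx1), indicator_of_mem hx1]
  · rw [indicator_of_notMem hx1]
    by_cases hx2 : x ∈ Ioo (0:ℝ) (2 * π)
    · rw [indicator_of_mem hx2]
      have h3 : π < x := by
        rcases lt_or_gt_of_ne hx with h4 | h4
        · exact absurd ⟨hx2.1, h4⟩ hx1
        · exact h4
      have := h (2 * π - x) ⟨by linarith [hx2.2], by linarith⟩
      rwa [show 2 * π - (2 * π - x) = x by ring] at this
    · rw [indicator_of_notMem hx2]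

/-- the Hilbert transform part, folded -/
theorem HTfold {W F : ℝ → ℝ} {K : ℝ} (hp : Function.Periodic W (2 * π)) (ho : ∀ x, W (-x) = -W x)
    (hK : Lip K W) (hF : SD_BL F) (hF2 : ∀ x ∈ Ioo (0:ℝ) π, F (2 * π - x) = 0) :
    IntegrableOn (fun z : ℝ × ℝ => (F z.1 * W z.2 - F z.2 * W z.1) * ct (z.1 - z.2) -
      (F z.1 * W z.2 + F z.2 * W z.1) * ct (z.1 + z.2)) Sq1 ∧
    ∫ x in Ioo (0:ℝ) π, F x * HT W x = 1 / (4 * π) *
      ∫ z in Sq1, ((F z.1 * W z.2 - F z.2 * W z.1) * ct (z.1 - z.2) -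
      (F z.1 * W z.2 + F z.2 * W z.1) * ct (z.1 + z.2)) := by
  have hpi := Real.pi_pos
  obtain ⟨K', hK'⟩ := hF.lip
  obtain ⟨B', hB'⟩ := hF.bd
  have hrefl := JKer_refl hp ho
  obtain ⟨T, hTd⟩ : ∃ T : ℝ → ℝ → ℝ, T = fun x y => (F x * W y - F y * W x) * ct (x - y) :=
    ⟨_, rfl⟩
  have hT0 : IntegrableOn (fun z : ℝ × ℝ => (F z.1 * W z.2 - F z.2 * W z.1) * ct (z.1 - z.2)) Sq2 :=
    HT_fubini_lip hK' hF.per hp hK
  have hI1 := HT_fubini (Lip.continuous hK').measurable hB' hF.per hp hK hT0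
  have hT : IntegrableOn (fun z : ℝ × ℝ => T z.1 z.2) Sq2 := by rw [hTd]; exact hT0
  have hI1' : ∫ x in (0:ℝ)..(2 * π), F x * HT W x = 1 / (4 * π) * ∫ z in Sq2, T z.1 z.2 := by
    rw [hI1, hTd]
  rw [intervalIntegral.integral_of_le Real.two_pi_pos.le, integral_Ioc_eq_integral_Ioo,
    half_integral (fun x hx => by rw [hF2 x hx, zero_mul])] at hI1'
  obtain ⟨f1, f2⟩ := fold_integral hT
  have hfold : ∀ z ∈ Sq1, fold4 T z.1 z.2 = (F z.1 * W z.2 - F z.2 * W z.1) * ct (z.1 - z.2) -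
      (F z.1 * W z.2 + F z.2 * W z.1) * ct (z.1 + z.2) := by
    intro z hz
    have F1' := hF2 _ hz.1
    have F2' := hF2 _ hz.2
    have c1 : ct (2 * π - z.1 - z.2) = -ct (z.1 + z.2) := by
      rw [← JKer_ct_sub]
      congr 1
      ring
    have c2 : ct (z.1 - (2 * π - z.2)) = ct (z.1 + z.2) := by
      rw [← JKer_ct_sub' (z.1 + z.2)]
      congr 1
      ring
    unfold fold4
    rw [hTd]
    beta_reduce
    rw [F1', F2', hrefl z.1, hrefl z.2, c1, c2]
    ring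
  refine ⟨f1.congr_fun hfold JKer_ms, ?_⟩
  rw [hI1', f2, setIntegral_congr_fun JKer_ms hfold]

/-- the part of the velocity, folded -/
theorem UUfold {W P : ℝ → ℝ} {K C : ℝ} (hp : Function.Periodic W (2 * π))
    (ho : ∀ x, W (-x) = -W x) (hK : Lip K W) (hPm : Measurable P) (hC : 0 ≤ C)
    (hPb : ∀ x ∈ Ioo (0:ℝ) (2 * π), |P x| ≤ C)
    (hP2 : ∀ x ∈ Ioo (0:ℝ) π, P (2 * π - x) = 0) (l : ℝ) :
    IntegrableOn (fun z : ℝ × ℝ => P z.1 * W z.2 * (Lg z.1 z.2 - Lg l z.2)) Sq1 ∧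
    ∫ x in Ioo (0:ℝ) π, P x * (UU W x - UU W l) = 1 / π *
      ∫ z in Sq1, P z.1 * W z.2 * (Lg z.1 z.2 - Lg l z.2) := by
  have hpi := Real.pi_pos
  have hWc : Continuous W := Lip.continuous hK
  have hBW := SD_BL_W hp ⟨K, hK⟩
  obtain ⟨B, hB⟩ := hBW.bd
  have hB0 : 0 ≤ B := (abs_nonneg _).trans (hB 0)
  have hrefl := JKer_refl hp ho
  have hms : MeasurableSet Sq2 := measurableSet_Ioo.prod measurableSet_Ioo
  obtain ⟨G, hGd⟩ : ∃ G : ℝ → ℝ → ℝ, G = fun x y => (P x * W y) *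
      (Real.log (Real.sin ((x - y) / 2)) - Real.log (Real.sin (y / 2))) := ⟨_, rfl⟩
  obtain ⟨G', hGd'⟩ : ∃ G : ℝ → ℝ → ℝ, G = fun x y => P x * (W y *
      (Real.log (Real.sin ((l - y) / 2)) - Real.log (Real.sin (y / 2)))) := ⟨_, rfl⟩
  have hG : IntegrableOn (fun z : ℝ × ℝ => G z.1 z.2) Sq2 := by
    rw [hGd]
    refine Integrable.bdd_mul (c := C * B) (SD_log_sq.sub SD_log_snd)
      (((hPm.comp measurable_fst).mul (hWc.measurable.comp measurable_snd)).aestronglyMeasurable)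
      ?_
    refine ae_restrict_of_forall_mem hms fun z hz => ?_
    rw [Real.norm_eq_abs, abs_mul]
    exact mul_le_mul (hPb _ hz.1) (hB _) (abs_nonneg _) hC
  have hPi : Integrable P (volume.restrict (Ioo (0:ℝ) (2 * π))) := by
    refine Measure.integrableOn_of_bounded (M := C) measure_Ioo_lt_top.ne hPm.aestronglyMeasurable ?_
    exact ae_restrict_of_forall_mem measurableSet_Ioo fun x hx => hPb x hx
  have hLi : Integrable (fun y => W y *
      (Real.log (Real.sin ((l - y) / 2)) - Real.log (Real.sin (y / 2))))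
      (volume.restrict (Ioo (0:ℝ) (2 * π))) := by
    have j1 := log_sin_integrable l 0 (2 * π)
    have j2 := log_sin_integrable 0 0 (2 * π)
    rw [intervalIntegrable_iff_integrableOn_Ioo_of_le Real.two_pi_pos.le] at j1 j2
    have j2' : Integrable (fun y : ℝ => Real.log (Real.sin (y / 2)))
        (volume.restrict (Ioo (0:ℝ) (2 * π))) := by
      refine j2.congr (Eventually.of_forall fun y => ?_)
      show Real.log (Real.sin ((0 - y) / 2)) = Real.log (Real.sin (y / 2))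
      rw [show (0 - y) / 2 = -(y / 2) by ring, Real.sin_neg, Real.log_neg_eq_log]
    refine Integrable.bdd_mul (c := B) (Integrable.sub j1 j2') hWc.aestronglyMeasurable ?_
    exact Eventually.of_forall fun y => hB y
  have hG' : IntegrableOn (fun z : ℝ × ℝ => G' z.1 z.2) Sq2 := by
    rw [hGd']
    show Integrable _ (volume.restrict Sq2)
    rw [SD_Sq2]
    exact hPi.mul_prod hLi
  have hI2 : ∫ x in Ioo (0:ℝ) (2 * π), P x * UU W x = 1 / π * ∫ z in Sq2, G z.1 z.2 := by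
    have h1 : Integrable (fun z : ℝ × ℝ => G z.1 z.2) (volume.restrict Sq2) := hG
    rw [SD_Sq2] at h1 ⊢
    rw [integral_prod _ h1, ← integral_const_mul]
    refine setIntegral_congr_fun measurableSet_Ioo fun x _ => ?_
    show P x * UU W x = 1 / π * ∫ y in Ioo (0:ℝ) (2 * π), G x y
    rw [log_kernel hp hK x, intervalIntegral.integral_of_le Real.two_pi_pos.le,
      integral_Ioc_eq_integral_Ioo, mul_left_comm, ← integral_const_mul]
    congr 1
    refine setIntegral_congr_fun measurableSet_Ioo fun y _ => ?_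
    rw [hGd]
    show P x * (W y * _) = (P x * W y) * _
    ring
  have hI3 : ∫ x in Ioo (0:ℝ) (2 * π), P x * UU W l = 1 / π * ∫ z in Sq2, G' z.1 z.2 := by
    have e := integral_prod_mul (μ := volume.restrict (Ioo (0:ℝ) (2 * π)))
      (ν := volume.restrict (Ioo (0:ℝ) (2 * π))) P (fun y => W y *
      (Real.log (Real.sin ((l - y) / 2)) - Real.log (Real.sin (y / 2))))
    rw [SD_Sq2, hGd']
    refine Eq.trans ?_ (congrArg (fun t => 1 / π * t) e).symm
    rw [integral_mul_const, log_kernel hp hK l,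
      intervalIntegral.integral_of_le Real.two_pi_pos.le, integral_Ioc_eq_integral_Ioo]
    ring
  obtain ⟨H, hHd⟩ : ∃ H : ℝ → ℝ → ℝ, H = fun x y => G x y - G' x y := ⟨_, rfl⟩
  have hH : IntegrableOn (fun z : ℝ × ℝ => H z.1 z.2) Sq2 := by
    rw [hHd]
    exact hG.sub hG'
  obtain ⟨f1, f2⟩ := fold_integral hH
  have hfold : ∀ z ∈ Sq1, fold4 H z.1 z.2 = P z.1 * W z.2 * (Lg z.1 z.2 - Lg l z.2) := by
    intro z hz
    have P1' := hP2 _ hz.1
    have l1 : Real.log (Real.sin ((z.1 - (2 * π - z.2)) / 2)) =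
        Real.log (Real.sin ((z.1 + z.2) / 2)) := by
      rw [show (z.1 - (2 * π - z.2)) / 2 = (z.1 + z.2) / 2 - π by ring, Real.sin_sub_pi,
        Real.log_neg_eq_log]
    have l3 : Real.log (Real.sin ((l - (2 * π - z.2)) / 2)) =
        Real.log (Real.sin ((l + z.2) / 2)) := by
      rw [show (l - (2 * π - z.2)) / 2 = (l + z.2) / 2 - π by ring, Real.sin_sub_pi,
        Real.log_neg_eq_log]
    unfold fold4
    rw [hHd, hGd, hGd']
    beta_reduce
    rw [P1', hrefl z.2, l1, l3]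
    unfold Lg
    ring
  refine ⟨f1.congr_fun hfold JKer_ms, ?_⟩
  rw [← setIntegral_congr_fun JKer_ms hfold, ← f2]
  have hUc : Continuous (UU W) := continuous_iff_continuousAt.2 fun x =>
    (hasDerivAt_UU hK x).continuousAt
  have i2 : IntegrableOn (fun x => P x * UU W x) (Ioo (0:ℝ) (2 * π)) := by
    refine Integrable.bdd_mul (c := C)
      ((hUc.integrableOn_Icc).mono_set Ioo_subset_Icc_self) hPm.aestronglyMeasurable ?_
    exact ae_restrict_of_forall_mem measurableSet_Ioo fun x hx => hPb x hx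
  have i3 : IntegrableOn (fun x => P x * UU W l) (Ioo (0:ℝ) (2 * π)) := hPi.mul_const _
  have e1 : ∫ x in Ioo (0:ℝ) π, P x * (UU W x - UU W l) =
      ∫ x in Ioo (0:ℝ) (2 * π), P x * (UU W x - UU W l) := by
    rw [half_integral (fun x hx => by rw [hP2 x hx, zero_mul])]
  have e2 : ∫ x in Ioo (0:ℝ) (2 * π), P x * (UU W x - UU W l) =
      (∫ x in Ioo (0:ℝ) (2 * π), P x * UU W x) - ∫ x in Ioo (0:ℝ) (2 * π), P x * UU W l := by
    rw [← integral_sub i2 i3]
    refine setIntegral_congr_fun measurableSet_Ioo fun x _ => ?_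
    show _ = P x * UU W x - P x * UU W l
    ring
  have e3 : ∫ z in Sq2, H z.1 z.2 = (∫ z in Sq2, G z.1 z.2) - ∫ z in Sq2, G' z.1 z.2 := by
    rw [hHd]
    exact integral_sub hG hG'
  rw [e1, e2, hI2, hI3, e3]
  ring

theorem OddE_a0 {W : ℝ → ℝ} {l x : ℝ} (h : OddE W l) (h0 : 0 < x) (h1 : x ≤ l) : bF W x = 0 :=
  max_eq_right (h.neg x ⟨h0.le, h1⟩)

theorem OddE_b0 {W : ℝ → ℝ} {l x : ℝ} (h : OddE W l) (h0 : l ≤ x) (h1 : x < π) : bR W x = 0 :=
  max_eq_right (by have := h.pos x ⟨h0, h1.le⟩; linarith)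

theorem bF_sub_bR (W : ℝ → ℝ) (x : ℝ) : W x = bF W x - bR W x := by
  show W x = max (W x) 0 - max (-W x) 0
  rcases le_total 0 (W x) with h1 | h1
  · rw [max_eq_left h1, max_eq_right (by linarith)]; ring
  · rw [max_eq_right h1, max_eq_left (by linarith)]; ring

theorem bF_add_bR (W : ℝ → ℝ) (x : ℝ) : |W x| = bF W x + bR W x := by
  show |W x| = max (W x) 0 + max (-W x) 0
  rcases le_total 0 (W x) with h1 | h1
  · rw [max_eq_left h1, max_eq_right (by linarith), abs_of_nonneg h1]; ring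
  · rw [max_eq_right h1, max_eq_left (by linarith), abs_of_nonpos h1]; ring

/-- symmetrisation -/
theorem sym_int {f : ℝ → ℝ} {k : ℝ × ℝ → ℝ}
    (h : IntegrableOn (fun z : ℝ × ℝ => f z.1 * f z.2 * k z) Sq1) :
    IntegrableOn (fun z : ℝ × ℝ => f z.1 * f z.2 * (1 / 2 * (k z + k z.swap))) Sq1 ∧
    ∫ z in Sq1, f z.1 * f z.2 * (1 / 2 * (k z + k z.swap)) =
      ∫ z in Sq1, f z.1 * f z.2 * k z := by
  obtain ⟨j1, j2⟩ := JKer_swap h
  have e : ∀ z : ℝ × ℝ, f z.1 * f z.2 * (1 / 2 * (k z + k z.swap)) =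
      1 / 2 * (f z.1 * f z.2 * k z + f z.swap.1 * f z.swap.2 * k z.swap) := by
    intro z
    show f z.1 * f z.2 * (1 / 2 * (k z + k z.swap)) =
      1 / 2 * (f z.1 * f z.2 * k z + f z.2 * f z.1 * k z.swap)
    ring
  simp only [e]
  refine ⟨(h.add j1).const_mul _, ?_⟩
  rw [integral_const_mul, integral_add h j1, j2]
  ring

/-- splitting of a quadratic integrand -/
theorem quad_split {W : ℝ → ℝ} {l : ℝ} (h : OddE W l) {I k1 k2 k3 k4 : ℝ × ℝ → ℝ}
    (hI : IntegrableOn I Sq1)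
    (he : ∀ z ∈ Sq1, I z = bF W z.1 * bF W z.2 * k1 z + bR W z.1 * bR W z.2 * k2 z +
      bF W z.1 * bR W z.2 * k3 z + bR W z.1 * bF W z.2 * k4 z) :
    IntegrableOn (fun z : ℝ × ℝ => bF W z.1 * bF W z.2 * (1 / 2 * (k1 z + k1 z.swap))) Sq1 ∧
    IntegrableOn (fun z : ℝ × ℝ => bR W z.1 * bR W z.2 * (1 / 2 * (k2 z + k2 z.swap))) Sq1 ∧
    IntegrableOn (fun z : ℝ × ℝ => bF W z.1 * bR W z.2 * (k3 z + k4 z.swap)) Sq1 ∧
    ∫ z in Sq1, I z = (∫ z in Sq1, bF W z.1 * bF W z.2 * (1 / 2 * (k1 z + k1 z.swap))) +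
      (∫ z in Sq1, bR W z.1 * bR W z.2 * (1 / 2 * (k2 z + k2 z.swap))) +
      ∫ z in Sq1, bF W z.1 * bR W z.2 * (k3 z + k4 z.swap) := by
  have m1 : Measurable (fun z : ℝ × ℝ => z.1) := measurable_fst
  have m2 : Measurable (fun z : ℝ × ℝ => z.2) := measurable_snd
  have i1 : IntegrableOn (fun z : ℝ × ℝ => bF W z.1 * bF W z.2 * k1 z) Sq1 := by
    refine JKer_piece hI (S := {z | l < z.1 ∧ l < z.2}) ?_ (fun z hz hS => ?_) (fun z hz hS => ?_)
    · exact (measurableSet_lt measurable_const m1).inter (measurableSet_lt measurable_const m2)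
    · rw [he z hz, OddE_b0 h hS.1.le hz.1.2, OddE_b0 h hS.2.le hz.2.2]
      ring
    · rcases lt_or_ge l z.1 with h1 | h1
      · rcases lt_or_ge l z.2 with h2 | h2
        · exact absurd ⟨h1, h2⟩ hS
        · rw [OddE_a0 h hz.2.1 h2]; ring
      · rw [OddE_a0 h hz.1.1 h1]; ring
  have i2 : IntegrableOn (fun z : ℝ × ℝ => bR W z.1 * bR W z.2 * k2 z) Sq1 := by
    refine JKer_piece hI (S := {z | z.1 < l ∧ z.2 < l}) ?_ (fun z hz hS => ?_) (fun z hz hS => ?_)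
    · exact (measurableSet_lt m1 measurable_const).inter (measurableSet_lt m2 measurable_const)
    · rw [he z hz, OddE_a0 h hz.1.1 hS.1.le, OddE_a0 h hz.2.1 hS.2.le]
      ring
    · rcases lt_or_ge z.1 l with h1 | h1
      · rcases lt_or_ge z.2 l with h2 | h2
        · exact absurd ⟨h1, h2⟩ hS
        · rw [OddE_b0 h h2 hz.2.2]; ring
      · rw [OddE_b0 h h1 hz.1.2]; ring
  have i3 : IntegrableOn (fun z : ℝ × ℝ => bF W z.1 * bR W z.2 * k3 z) Sq1 := by
    refine JKer_piece hI (S := {z | l < z.1 ∧ z.2 < l}) ?_ (fun z hz hS => ?_) (fun z hz hS => ?_)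
    · exact (measurableSet_lt measurable_const m1).inter (measurableSet_lt m2 measurable_const)
    · rw [he z hz, OddE_b0 h hS.1.le hz.1.2, OddE_a0 h hz.2.1 hS.2.le]
      ring
    · rcases lt_or_ge l z.1 with h1 | h1
      · rcases lt_or_ge z.2 l with h2 | h2
        · exact absurd ⟨h1, h2⟩ hS
        · rw [OddE_b0 h h2 hz.2.2]; ring
      · rw [OddE_a0 h hz.1.1 h1]; ring
  have i4 : IntegrableOn (fun z : ℝ × ℝ => bR W z.1 * bF W z.2 * k4 z) Sq1 := by
    refine JKer_piece hI (S := {z | z.1 < l ∧ l < z.2}) ?_ (fun z hz hS => ?_) (fun z hz hS => ?_)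
    · exact (measurableSet_lt m1 measurable_const).inter (measurableSet_lt measurable_const m2)
    · rw [he z hz, OddE_a0 h hz.1.1 hS.1.le, OddE_b0 h hS.2.le hz.2.2]
      ring
    · rcases lt_or_ge z.1 l with h1 | h1
      · rcases lt_or_ge l z.2 with h2 | h2
        · exact absurd ⟨h1, h2⟩ hS
        · rw [OddE_a0 h hz.2.1 h2]; ring
      · rw [OddE_b0 h h1 hz.1.2]; ring
  obtain ⟨s1, t1⟩ := sym_int i1
  obtain ⟨s2, t2⟩ := sym_int i2
  obtain ⟨j4, t4⟩ := JKer_swap i4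
  have e34 : ∀ z : ℝ × ℝ, bF W z.1 * bR W z.2 * (k3 z + k4 z.swap) =
      bF W z.1 * bR W z.2 * k3 z + bR W z.swap.1 * bF W z.swap.2 * k4 z.swap := by
    intro z
    show bF W z.1 * bR W z.2 * (k3 z + k4 z.swap) =
      bF W z.1 * bR W z.2 * k3 z + bR W z.2 * bF W z.1 * k4 z.swap
    ring
  simp only [e34]
  refine ⟨s1, s2, i3.add j4, ?_⟩
  rw [t1, t2, integral_add i3 j4, t4, setIntegral_congr_fun JKer_ms he]
  have i12 := i1.add i2
  have i123 := i12.add i3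
  have e2 : ∫ z in Sq1, (bF W z.1 * bF W z.2 * k1 z + bR W z.1 * bR W z.2 * k2 z) =
      (∫ z in Sq1, bF W z.1 * bF W z.2 * k1 z) + ∫ z in Sq1, bR W z.1 * bR W z.2 * k2 z :=
    integral_add i1 i2
  have e3 : ∫ z in Sq1, (bF W z.1 * bF W z.2 * k1 z + bR W z.1 * bR W z.2 * k2 z +
      bF W z.1 * bR W z.2 * k3 z) = (∫ z in Sq1, bF W z.1 * bF W z.2 * k1 z) +
      (∫ z in Sq1, bR W z.1 * bR W z.2 * k2 z) + ∫ z in Sq1, bF W z.1 * bR W z.2 * k3 z := by
    rw [← e2]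
    exact integral_add i12 i3
  have e4 : ∫ z in Sq1, (bF W z.1 * bF W z.2 * k1 z + bR W z.1 * bR W z.2 * k2 z +
      bF W z.1 * bR W z.2 * k3 z + bR W z.1 * bF W z.2 * k4 z) =
      (∫ z in Sq1, (bF W z.1 * bF W z.2 * k1 z + bR W z.1 * bR W z.2 * k2 z +
      bF W z.1 * bR W z.2 * k3 z)) + ∫ z in Sq1, bR W z.1 * bF W z.2 * k4 z :=
    integral_add i123 i4
  rw [e4, e3]
  ring

/-- Lipschitz version of the part of `f` on `(0,π)`, zero on `(π,2π)` -/
theorem cut_part {f : ℝ → ℝ} (hf : SD_BL f) (h0 : f 0 = 0) (h1 : f π = 0)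
    (hn : ∀ x, 0 ≤ f x) :
    ∃ g : ℝ → ℝ, SD_BL g ∧ (∀ x ∈ Ioo (0:ℝ) π, g x = f x) ∧
      (∀ x ∈ Ioo (0:ℝ) π, g (2 * π - x) = 0) ∧ (∀ x, 0 ≤ g x) ∧ (∀ x, g x ≤ f x) := by
  have hpi := Real.pi_pos
  obtain ⟨K, hK⟩ := hf.lip
  have hK0 := hK.nonneg
  refine ⟨fun x => min (f x) (K * (π / 2) * max (Real.sin x) 0), ?_, ?_, ?_, ?_, ?_⟩
  · exact JKer_min hf ((SD_BL.const _).mul (JKer_sin.maxc 0))
  · intro x hx
    show min (f x) (K * (π / 2) * max (Real.sin x) 0) = f x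
    refine min_eq_left ?_
    have hsx : 0 ≤ Real.sin x := Real.sin_nonneg_of_nonneg_of_le_pi hx.1.le hx.2.le
    rw [max_eq_left hsx]
    rcases le_total x (π / 2) with h2 | h2
    · have a1 := Real.mul_le_sin hx.1.le h2
      have a2 := hK x 0
      rw [h0, sub_zero, sub_zero, abs_of_pos hx.1] at a2
      have a3 := mul_le_mul_of_nonneg_left a1 (by positivity : 0 ≤ K * (π / 2))
      have a4 : K * (π / 2) * (2 / π * x) = K * x := by
        field_simp
      rw [a4] at a3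
      exact ((le_abs_self _).trans a2).trans a3
    · have a1 := Real.mul_le_sin (x := π - x) (by linarith [hx.2]) (by linarith)
      rw [Real.sin_pi_sub] at a1
      have a2 := hK x π
      rw [h1, sub_zero, abs_sub_comm, abs_of_pos (by linarith [hx.2] : 0 < π - x)] at a2
      have a3 := mul_le_mul_of_nonneg_left a1 (by positivity : 0 ≤ K * (π / 2))
      have a4 : K * (π / 2) * (2 / π * (π - x)) = K * (π - x) := by
        field_simp
      rw [a4] at a3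
      exact ((le_abs_self _).trans a2).trans a3
  · intro x hx
    show min (f (2 * π - x)) (K * (π / 2) * max (Real.sin (2 * π - x)) 0) = 0
    have hsx : 0 ≤ Real.sin x := Real.sin_nonneg_of_nonneg_of_le_pi hx.1.le hx.2.le
    rw [Real.sin_two_pi_sub, max_eq_right (by linarith : -Real.sin x ≤ 0), mul_zero]
    exact min_eq_right (hn _)
  · intro x
    exact le_min (hn x) (mul_nonneg (by positivity) (le_max_right _ _))
  · intro x
    exact min_le_left _ _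

theorem OddE_zero {W : ℝ → ℝ} {l : ℝ} (h : OddE W l) : W 0 = 0 ∧ W l = 0 ∧ W π = 0 := by
  refine ⟨?_, ?_, ?_⟩
  · have := h.odd 0
    rw [neg_zero] at this
    linarith
  · have a1 := h.neg l ⟨h.l0.le, le_rfl⟩
    have a2 := h.pos l ⟨le_rfl, h.l1.le⟩
    linarith
  · have := JKer_refl h.per h.odd π
    rw [show 2 * π - π = π by ring] at this
    linarith

theorem BL_bF {W : ℝ → ℝ} (h : SD_BL W) : SD_BL (bF W) := h.maxc 0

theorem BL_bR {W : ℝ → ℝ} (h : SD_BL W) : SD_BL (bR W) := h.neg.maxc 0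

/-- an integral over `(0,π)` of a function vanishing on `(0,l)` -/
theorem part_right {f : ℝ → ℝ} {l : ℝ} (h0 : 0 < l) (h1 : l < π)
    (hf : ∀ x, 0 < x → x ≤ l → f x = 0) : ∫ x in Ioo (0:ℝ) π, f x = ∫ x in l..π, f x := by
  rw [intervalIntegral.integral_of_le h1.le, integral_Ioc_eq_integral_Ioo]
  refine setIntegral_eq_of_subset_of_forall_sdiff_eq_zero measurableSet_Ioo
    (Ioo_subset_Ioo_left h0.le) fun x hx => ?_
  refine hf x hx.1.1 ?_
  by_contra hc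
  exact hx.2 ⟨not_le.1 hc, hx.1.2⟩

theorem part_left {f : ℝ → ℝ} {l : ℝ} (h0 : 0 < l) (h1 : l < π)
    (hf : ∀ x, l ≤ x → x < π → f x = 0) : ∫ x in Ioo (0:ℝ) π, f x = ∫ x in (0:ℝ)..l, f x := by
  rw [intervalIntegral.integral_of_le h0.le, integral_Ioc_eq_integral_Ioo]
  refine setIntegral_eq_of_subset_of_forall_sdiff_eq_zero measurableSet_Ioo
    (Ioo_subset_Ioo_right h1.le) fun x hx => ?_
  refine hf x ?_ hx.1.2
  by_contra hc
  exact hx.2 ⟨hx.1.1, not_le.1 hc⟩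

theorem int_of_mul {f : ℝ × ℝ → ℝ} {c : ℝ} (hc : c ≠ 0)
    (h : IntegrableOn (fun z => c * f z) Sq1) : IntegrableOn f Sq1 := by
  refine (h.const_mul c⁻¹).congr (Eventually.of_forall fun z => ?_)
  show c⁻¹ * (c * f z) = f z
  rw [← mul_assoc, inv_mul_cancel₀ hc, one_mul]

theorem MP_kernel {W : ℝ → ℝ} {l : ℝ} (h : OddE W l) (hL : ∃ K, Lip K W) :
    IntegrableOn (fun z : ℝ × ℝ => bF W z.1 * bF W z.2 * kM z.1 z.2) Sq1 ∧
    IntegrableOn (fun z : ℝ × ℝ => bF W z.1 * bR W z.2 * kMp z.1 z.2) Sq1 ∧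
    ∫ x in l..π, W x * HT W x = -(∫ z in Sq1, bF W z.1 * bF W z.2 * kM z.1 z.2) +
      ∫ z in Sq1, bF W z.1 * bR W z.2 * kMp z.1 z.2 := by
  have hpi := Real.pi_pos
  obtain ⟨K, hK⟩ := hL
  have hBW := SD_BL_W h.per ⟨K, hK⟩
  obtain ⟨z0, zl, zp⟩ := OddE_zero h
  obtain ⟨g, g1, g2, g3, g4, g5⟩ := cut_part (BL_bF hBW) (by show max (W 0) 0 = 0; rw [z0, max_self])
    (by show max (W π) 0 = 0; rw [zp, max_self]) (fun x => le_max_right _ _)
  obtain ⟨i0, e0⟩ := HTfold h.per h.odd hK g1 g3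
  obtain ⟨q1, q2, q3, q4⟩ := quad_split h (k1 := fun z => -2 * ct (z.1 + z.2)) (k2 := fun _ => 0)
    (k3 := fun z => -ct (z.1 - z.2) + ct (z.1 + z.2)) (k4 := fun z => ct (z.1 - z.2) + ct (z.1 + z.2))
    i0 (by
      intro z hz
      have w1 := bF_sub_bR W z.1
      have w2 := bF_sub_bR W z.2
      rw [g2 _ hz.1, g2 _ hz.2, w1, w2]
      ring)
  have r1 : ∀ z : ℝ × ℝ, bF W z.1 * bF W z.2 * (1 / 2 * (-2 * ct (z.1 + z.2) +
      -2 * ct (z.swap.1 + z.swap.2))) = (-(4 * π)) * (bF W z.1 * bF W z.2 * kM z.1 z.2) := by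
    intro z
    show bF W z.1 * bF W z.2 * (1 / 2 * (-2 * ct (z.1 + z.2) + -2 * ct (z.2 + z.1))) = _
    unfold kM
    rw [add_comm z.2 z.1]
    field_simp
    ring
  have r3 : ∀ z : ℝ × ℝ, bF W z.1 * bR W z.2 * (-ct (z.1 - z.2) + ct (z.1 + z.2) +
      (ct (z.swap.1 - z.swap.2) + ct (z.swap.1 + z.swap.2))) =
      (4 * π) * (bF W z.1 * bR W z.2 * kMp z.1 z.2) := by
    intro z
    show bF W z.1 * bR W z.2 * (-ct (z.1 - z.2) + ct (z.1 + z.2) +
      (ct (z.2 - z.1) + ct (z.2 + z.1))) = _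
    unfold kMp
    rw [ct_anti z.1 z.2, add_comm z.2 z.1]
    field_simp
    ring
  simp only [r1, r3] at q1 q3 q4
  have c1 : (-(4 * π)) ≠ 0 := by
    have : (4 * π) ≠ 0 := by positivity
    exact neg_ne_zero.2 this
  have c3 : (4 * π) ≠ 0 := by positivity
  refine ⟨int_of_mul c1 q1, int_of_mul c3 q3, ?_⟩
  have e1 : ∫ x in l..π, W x * HT W x = ∫ x in Ioo (0:ℝ) π, g x * HT W x := by
    have e2 : ∫ x in Ioo (0:ℝ) π, g x * HT W x = ∫ x in Ioo (0:ℝ) π, bF W x * HT W x :=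
      setIntegral_congr_fun measurableSet_Ioo fun x hx => by
        show g x * HT W x = bF W x * HT W x
        rw [g2 x hx]
    rw [e2, part_right h.l0 h.l1 (fun x a b => by rw [OddE_a0 h a b, zero_mul])]
    refine intervalIntegral.integral_congr fun x hx => ?_
    rw [uIcc_of_le h.l1.le] at hx
    show W x * HT W x = bF W x * HT W x
    have : bF W x = W x := max_eq_left (h.pos x hx)
    rw [this]
  rw [e1, e0, q4, integral_const_mul, integral_const_mul]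
  have e3 : ∫ z in Sq1, bR W z.1 * bR W z.2 * (1 / 2 * ((0:ℝ) + 0)) = 0 := by simp
  rw [e3]
  field_simp
  ring

theorem MN_kernel {W : ℝ → ℝ} {l : ℝ} (h : OddE W l) (hL : ∃ K, Lip K W) :
    IntegrableOn (fun z : ℝ × ℝ => bR W z.1 * bR W z.2 * kM z.1 z.2) Sq1 ∧
    IntegrableOn (fun z : ℝ × ℝ => bF W z.1 * bR W z.2 * kMn z.1 z.2) Sq1 ∧
    ∫ x in (0:ℝ)..l, W x * HT W x = -(∫ z in Sq1, bR W z.1 * bR W z.2 * kM z.1 z.2) +
      ∫ z in Sq1, bF W z.1 * bR W z.2 * kMn z.1 z.2 := by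
  have hpi := Real.pi_pos
  obtain ⟨K, hK⟩ := hL
  have hBW := SD_BL_W h.per ⟨K, hK⟩
  obtain ⟨z0, zl, zp⟩ := OddE_zero h
  obtain ⟨g, g1, g2, g3, g4, g5⟩ := cut_part (BL_bR hBW)
    (by show max (-W 0) 0 = 0; rw [z0, neg_zero, max_self])
    (by show max (-W π) 0 = 0; rw [zp, neg_zero, max_self]) (fun x => le_max_right _ _)
  obtain ⟨i0, e0⟩ := HTfold h.per h.odd hK g1 g3
  obtain ⟨q1, q2, q3, q4⟩ := quad_split h (k1 := fun _ => 0) (k2 := fun z => 2 * ct (z.1 + z.2))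
    (k3 := fun z => -ct (z.1 - z.2) - ct (z.1 + z.2)) (k4 := fun z => ct (z.1 - z.2) - ct (z.1 + z.2))
    i0 (by
      intro z hz
      have w1 := bF_sub_bR W z.1
      have w2 := bF_sub_bR W z.2
      rw [g2 _ hz.1, g2 _ hz.2, w1, w2]
      ring)
  have r1 : ∀ z : ℝ × ℝ, bR W z.1 * bR W z.2 * (1 / 2 * (2 * ct (z.1 + z.2) +
      2 * ct (z.swap.1 + z.swap.2))) = (4 * π) * (bR W z.1 * bR W z.2 * kM z.1 z.2) := by
    intro z
    show bR W z.1 * bR W z.2 * (1 / 2 * (2 * ct (z.1 + z.2) + 2 * ct (z.2 + z.1))) = _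
    unfold kM
    rw [add_comm z.2 z.1]
    field_simp
    ring
  have r3 : ∀ z : ℝ × ℝ, bF W z.1 * bR W z.2 * (-ct (z.1 - z.2) - ct (z.1 + z.2) +
      (ct (z.swap.1 - z.swap.2) - ct (z.swap.1 + z.swap.2))) =
      (-(4 * π)) * (bF W z.1 * bR W z.2 * kMn z.1 z.2) := by
    intro z
    show bF W z.1 * bR W z.2 * (-ct (z.1 - z.2) - ct (z.1 + z.2) +
      (ct (z.2 - z.1) - ct (z.2 + z.1))) = _
    unfold kMn
    rw [ct_anti z.1 z.2, add_comm z.2 z.1]
    field_simp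
    ring
  simp only [r1, r3] at q2 q3 q4
  have c3 : (4 * π) ≠ 0 := by positivity
  have c1 : (-(4 * π)) ≠ 0 := neg_ne_zero.2 c3
  refine ⟨int_of_mul c3 q2, int_of_mul c1 q3, ?_⟩
  have e1 : ∫ x in (0:ℝ)..l, W x * HT W x = -∫ x in Ioo (0:ℝ) π, g x * HT W x := by
    have e2 : ∫ x in Ioo (0:ℝ) π, g x * HT W x = ∫ x in Ioo (0:ℝ) π, bR W x * HT W x :=
      setIntegral_congr_fun measurableSet_Ioo fun x hx => by
        show g x * HT W x = bR W x * HT W x
        rw [g2 x hx]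
    rw [e2, part_left h.l0 h.l1 (fun x a b => by rw [OddE_b0 h a b, zero_mul]),
      ← intervalIntegral.integral_neg]
    refine intervalIntegral.integral_congr fun x hx => ?_
    rw [uIcc_of_le h.l0.le] at hx
    show W x * HT W x = -(bR W x * HT W x)
    have : bR W x = -W x := max_eq_left (by have := h.neg x hx; linarith)
    rw [this]
    ring
  rw [e1, e0, q4, integral_const_mul, integral_const_mul]
  have e3 : ∫ z in Sq1, bF W z.1 * bF W z.2 * (1 / 2 * ((0:ℝ) + 0)) = 0 := by simp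
  rw [e3]
  field_simp
  ring

end Pool.Agent.H12.DE
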